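import Mathlib

/-!
Banach bimodules, derivations into dual bimodules and (bounded) approximate semi-amenability.
-/

namespace Pool.Agent.P.MP_98688b_an

open Filter Topology

universe u v

/-- A Banach `A`-bimodule structure on the space `X`: continuous bilinear left and right actions
`a · x = left a x` and `x · a = right a x`. -/
structure Bimodule (A : Type) [NonUnitalNormedRing A] [NormedSpace ℂ A]
    (X : Type u) [NormedAddCommGroup X] [NormedSpace ℂ X] where
  left : A →L[ℂ] X →L[ℂ] X
  right : A →L[ℂ] X →L[ℂ] X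
  left_mul : ∀ (a b : A) (x : X), left (a * b) x = left a (left b x)
  right_mul : ∀ (a b : A) (x : X), right (a * b) x = right b (right a x)
  left_right : ∀ (a b : A) (x : X), left a (right b x) = right b (left a x)

variable {A : Type} [NonUnitalNormedRing A] [NormedSpace ℂ A]
  {X : Type u} [NormedAddCommGroup X] [NormedSpace ℂ X]

/-- The left action on the dual bimodule: `(a · f) x = f (x · a)`. -/
noncomputable def Bimodule.dualLeft (M : Bimodule A X) (a : A) (f : StrongDual ℂ X) :
    StrongDual ℂ X := f.comp (M.right a)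

/-- The right action on the dual bimodule: `(f · a) x = f (a · x)`. -/
noncomputable def Bimodule.dualRight (M : Bimodule A X) (a : A) (f : StrongDual ℂ X) :
    StrongDual ℂ X := f.comp (M.left a)

/-- `D (a b) = a · D b + D a · b` in the dual bimodule. -/
def Bimodule.IsDerivation (M : Bimodule A X) (D : A →L[ℂ] StrongDual ℂ X) : Prop :=
  ∀ a b : A, D (a * b) = M.dualLeft a (D b) + M.dualRight b (D a)

/-- The map `a ↦ a · ξ - η · a` into the dual bimodule. -/
noncomputable def Bimodule.ad (M : Bimodule A X) (ξ η : StrongDual ℂ X) (a : A) :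
    StrongDual ℂ X := M.dualLeft a ξ - M.dualRight a η

/-- `D` is the pointwise norm limit of a net of maps `ad ξ η`. -/
def Bimodule.IsApproxSemiInner (M : Bimodule A X) (D : A →L[ℂ] StrongDual ℂ X) : Prop :=
  ∃ (ι : Type v) (_ : Preorder ι) (_ : IsDirectedOrder ι) (_ : Nonempty ι)
    (ξ η : ι → StrongDual ℂ X),
    ∀ a : A, Tendsto (fun i => ‖M.ad (ξ i) (η i) a - D a‖) atTop (𝓝 0)

/-- `D` is the pointwise norm limit of a net of maps `ad ξ η` whose operator norms are at most
a constant `K`. -/
def Bimodule.IsBddApproxSemiInner (M : Bimodule A X) (D : A →L[ℂ] StrongDual ℂ X) : Prop :=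
  ∃ (ι : Type v) (_ : Preorder ι) (_ : IsDirectedOrder ι) (_ : Nonempty ι)
    (ξ η : ι → StrongDual ℂ X),
    (∀ a : A, Tendsto (fun i => ‖M.ad (ξ i) (η i) a - D a‖) atTop (𝓝 0)) ∧
      ∃ K : ℝ, 0 < K ∧ ∀ (i : ι) (a : A), ‖M.ad (ξ i) (η i) a‖ ≤ K * ‖a‖

/-- Every continuous derivation into a dual Banach bimodule is approximately semi-inner. -/
def IsApproxSemiAmenable (A : Type) [NonUnitalNormedRing A] [NormedSpace ℂ A] : Prop :=
  ∀ (X : Type u) [NormedAddCommGroup X] [NormedSpace ℂ X] [CompleteSpace X] (M : Bimodule A X)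
    (D : A →L[ℂ] StrongDual ℂ X), M.IsDerivation D → Bimodule.IsApproxSemiInner.{u, v} M D

/-- Every continuous derivation into a dual Banach bimodule is boundedly approximately
semi-inner. -/
def IsBddApproxSemiAmenable (A : Type) [NonUnitalNormedRing A] [NormedSpace ℂ A] : Prop :=
  ∀ (X : Type u) [NormedAddCommGroup X] [NormedSpace ℂ X] [CompleteSpace X] (M : Bimodule A X)
    (D : A →L[ℂ] StrongDual ℂ X), M.IsDerivation D → Bimodule.IsBddApproxSemiInner.{u, v} M D

end Pool.Agent.P.MP_98688b_an
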