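import Mathlib
import Pool.Agent.P.MP_98688b_an.Defs

/-!
Two abstract criteria: one for approximate semi-amenability, one against its bounded version.
-/

namespace Pool.Agent.P.MP_98688b_an

open Filter Topology

universe u v

variable {A : Type} [NonUnitalNormedRing A] [NormedSpace ℂ A]

/-- If finite sums of central rank one idempotents approximate the identity on finite sets, every
continuous derivation into any dual bimodule is approximately semi-inner. -/
theorem approxSemiInner_of_idempotents {J : Type} (p : J → A) (χ : J → A → ℂ)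
    (h1 : ∀ j a, a * p j = χ j a • p j) (h2 : ∀ j a, p j * a = χ j a • p j)
    (h3 : ∀ j, p j * p j = p j)
    (happ : ∀ (S : Finset A) (ε : ℝ), 0 < ε → ∃ F : Finset J, ∀ a ∈ S,
      ‖a - ∑ j ∈ F, χ j a • p j‖ < ε)
    {Y : Type u} [NormedAddCommGroup Y] [NormedSpace ℂ Y] (M : Bimodule A Y)
    (D : A →L[ℂ] StrongDual ℂ Y) (hD : M.IsDerivation D) : Bimodule.IsApproxSemiInner.{u, v} M D := by
  classical
  choose F hF using fun i : Finset A × ℕ => happ i.1 (1 / ((i.2 : ℝ) + 1)) (by positivity)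
  have hdir : IsDirectedOrder (ULift.{v} (Finset A × ℕ)) :=
    ⟨fun x y => ⟨ULift.up (x.down ⊔ y.down), (le_sup_left : x.down ≤ _),
      (le_sup_right : y.down ≤ _)⟩⟩
  refine ⟨ULift.{v} (Finset A × ℕ), inferInstance, hdir, inferInstance,
    fun i => ∑ j ∈ F i.down, M.dualLeft (p j) (D (p j)),
    fun i => -∑ j ∈ F i.down, M.dualRight (p j) (D (p j)), fun a => ?_⟩
  have key : ∀ G : Finset J, M.ad (∑ j ∈ G, M.dualLeft (p j) (D (p j)))
      (-∑ j ∈ G, M.dualRight (p j) (D (p j))) a = D (∑ j ∈ G, χ j a • p j) := by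
    intro G
    ext x
    simp only [Bimodule.ad, Bimodule.dualLeft, Bimodule.dualRight, sub_apply,
      ContinuousLinearMap.comp_apply, neg_apply, sub_neg_eq_add, map_sum,
      ContinuousLinearMap.sum_apply]
    rw [← Finset.sum_add_distrib]
    refine Finset.sum_congr rfl fun j _ => ?_
    have h4 := congrArg (fun f : StrongDual ℂ Y => f x) (hD (p j) (p j))
    simp only [h3, Bimodule.dualLeft, Bimodule.dualRight, add_apply,
      ContinuousLinearMap.comp_apply] at h4
    rw [← M.left_mul, ← M.right_mul, h1, h2, map_smul, map_smul, map_smul,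
      smul_apply, smul_apply, smul_apply, map_smul, map_smul, ← smul_add, ← h4]
  simp only [key]
  rw [← tendsto_iff_norm_sub_tendsto_zero]
  refine (D.continuous.tendsto a).comp ?_
  rw [Metric.tendsto_atTop]
  intro ε hε
  obtain ⟨n, hn⟩ := exists_nat_one_div_lt hε
  refine ⟨ULift.up ({a}, n), fun i hi => ?_⟩
  have hi' : (({a}, n) : Finset A × ℕ) ≤ i.down := hi
  have ha : a ∈ i.down.1 := hi'.1 (Finset.mem_singleton_self a)
  have hn' : (n : ℝ) ≤ i.down.2 := by exact_mod_cast hi'.2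
  rw [dist_comm, dist_eq_norm]
  calc _ < 1 / ((i.down.2 : ℝ) + 1) := hF i.down a ha
    _ ≤ 1 / ((n : ℝ) + 1) := by gcongr
    _ < ε := hn

variable [IsScalarTower ℂ A A] [SMulCommClass ℂ A A]

/-- The dual space of `A` (up to an isomorphism `e`) with its natural right action and the zero
left action. -/
noncomputable def dualModule {X : Type u} [NormedAddCommGroup X] [NormedSpace ℂ X]
    (e : X ≃L[ℂ] StrongDual ℂ A) : Bimodule A X where
  left := 0
  right := (e.symm.arrowCongr e.symm : _ →L[ℂ] _) ∘L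
    ((ContinuousLinearMap.compL ℂ A A ℂ).flip ∘L ContinuousLinearMap.mul ℂ A)
  left_mul a b x := by simp
  right_mul a b x := by
    apply e.injective
    ext c
    simp [mul_assoc]
  left_right a b x := by simp

lemma dualModule_right {X : Type u} [NormedAddCommGroup X] [NormedSpace ℂ X]
    (e : X ≃L[ℂ] StrongDual ℂ A) (a : A) (x : X) (b : A) :
    e ((dualModule e).right a x) b = e x (a * b) := by
  simp [dualModule]

theorem not_bdd_of_test
    (H : ∀ k : ℕ, ∃ (f : StrongDual ℂ A) (a₀ : A), f a₀ = 1 ∧ ‖f‖ ≤ 1 ∧ ∀ ε : ℝ, 0 < ε →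
      ∃ a : A, ‖a‖ ≤ 1 ∧ ∀ b : A, ‖(a - (k : ℂ) • a₀) * b‖ ≤ ε * ‖b‖) :
    ¬ IsBddApproxSemiAmenable.{u, v} A := by
  intro hA
  let e : ULift.{u} (StrongDual ℂ A) ≃L[ℂ] StrongDual ℂ A := ContinuousLinearEquiv.ulift
  have he : ∀ f, ‖e.symm f‖ = ‖f‖ := fun f => rfl
  have he' : ∀ x, ‖x‖ = ‖e x‖ := fun x => rfl
  let D : A →L[ℂ] StrongDual ℂ (ULift.{u} (StrongDual ℂ A)) :=
    (e : ULift.{u} (StrongDual ℂ A) →L[ℂ] StrongDual ℂ A).flip
  have hD : (dualModule e).IsDerivation D := by
    intro a b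
    ext x
    simp [Bimodule.dualLeft, Bimodule.dualRight, D, dualModule]
  obtain ⟨ι, _, _, _, ξ, η, hlim, K, hK, hbd⟩ := hA _ (dualModule e) D hD
  have had : ∀ i a x, (dualModule e).ad (ξ i) (η i) a x = ξ i ((dualModule e).right a x) := by
    intro i a x
    simp [Bimodule.ad, Bimodule.dualLeft, Bimodule.dualRight, dualModule]
  obtain ⟨k, hk⟩ := exists_nat_gt K
  obtain ⟨f, a₀, hfa, hf, Hε⟩ := H k
  have step : ∀ i, (k : ℝ) * ‖(dualModule e).ad (ξ i) (η i) a₀ (e.symm f)‖ ≤ K := by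
    intro i
    refine le_of_forall_pos_le_add fun δ hδ => ?_
    obtain ⟨a, ha, hab⟩ := Hε (δ / (‖ξ i‖ + 1)) (by positivity)
    have h1 : ‖(dualModule e).ad (ξ i) (η i) a (e.symm f)‖ ≤ K := by
      calc _ ≤ ‖(dualModule e).ad (ξ i) (η i) a‖ * ‖e.symm f‖ :=
            ContinuousLinearMap.le_opNorm _ _
        _ ≤ (K * ‖a‖) * ‖e.symm f‖ := by
            gcongr
            exact hbd i a
        _ ≤ (K * 1) * 1 := by
            rw [he]
            gcongr
        _ = K := by ring
    have h2 : ‖(dualModule e).ad (ξ i) (η i) (a - (k : ℂ) • a₀) (e.symm f)‖ ≤ δ := by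
      rw [had]
      have h3 : ‖(dualModule e).right (a - (k : ℂ) • a₀) (e.symm f)‖ ≤ δ / (‖ξ i‖ + 1) := by
        rw [he']
        refine ContinuousLinearMap.opNorm_le_bound _ (by positivity) fun b => ?_
        rw [dualModule_right, e.apply_symm_apply]
        calc _ ≤ ‖f‖ * ‖(a - (k : ℂ) • a₀) * b‖ := f.le_opNorm _
          _ ≤ 1 * (δ / (‖ξ i‖ + 1) * ‖b‖) := by
              gcongr
              exact hab b
          _ = _ := one_mul _
      calc _ ≤ ‖ξ i‖ * ‖(dualModule e).right (a - (k : ℂ) • a₀) (e.symm f)‖ := (ξ i).le_opNorm _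
        _ ≤ (‖ξ i‖ + 1) * (δ / (‖ξ i‖ + 1)) := by
            gcongr
            linarith
        _ = δ := by field_simp
    rw [had, map_sub, map_smul, sub_apply, smul_apply, map_sub, map_smul, ← had, ← had] at h2
    have h4 := norm_sub_norm_le
      ((k : ℂ) • (dualModule e).ad (ξ i) (η i) a₀ (e.symm f))
      ((dualModule e).ad (ξ i) (η i) a (e.symm f))
    rw [norm_sub_rev, norm_smul, Complex.norm_natCast] at h4
    linarith
  have hl : Tendsto (fun i => (k : ℝ) * ‖(dualModule e).ad (ξ i) (η i) a₀ (e.symm f)‖) atTop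
      (𝓝 ((k : ℝ) * ‖D a₀ (e.symm f)‖)) := by
    refine Tendsto.const_mul _ (Tendsto.norm ?_)
    exact ((ContinuousLinearMap.apply ℂ ℂ (e.symm f)).continuous.tendsto _).comp
      (tendsto_iff_norm_sub_tendsto_zero.2 (hlim a₀))
  have hDa : D a₀ (e.symm f) = 1 := by simp [D, hfa]
  rw [hDa, norm_one, mul_one] at hl
  have := le_of_tendsto' hl step
  linarith

end Pool.Agent.P.MP_98688b_an
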