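import Mathlib
import Pool.Agent.P.MP_98688b_an.Defs

/-!
Amenability, approximate amenability, and the algebra `Amp A`.
-/

namespace Pool.Agent.P.MP_98688b_an

open Filter Topology ZeroAtInfty

set_option linter.unusedSectionVars false

universe u v

section amen

variable {A : Type} [NonUnitalNormedRing A] [NormedSpace ℂ A]
  {X : Type u} [NormedAddCommGroup X] [NormedSpace ℂ X]

/-- `D` is the pointwise norm limit of a net of inner derivations `ad ξ ξ`. -/
def Bimodule.IsApproxInner (M : Bimodule A X) (D : A →L[ℂ] StrongDual ℂ X) : Prop :=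
  ∃ (ι : Type v) (_ : Preorder ι) (_ : IsDirectedOrder ι) (_ : Nonempty ι)
    (ξ : ι → StrongDual ℂ X), ∀ a : A, Tendsto (fun i => ‖M.ad (ξ i) (ξ i) a - D a‖) atTop (𝓝 0)

/-- Every continuous derivation into a dual Banach bimodule is approximately inner. -/
def IsApproxAmenable (A : Type) [NonUnitalNormedRing A] [NormedSpace ℂ A] : Prop :=
  ∀ (X : Type u) [NormedAddCommGroup X] [NormedSpace ℂ X] [CompleteSpace X] (M : Bimodule A X)
    (D : A →L[ℂ] StrongDual ℂ X), M.IsDerivation D → Bimodule.IsApproxInner.{u, v} M D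

/-- Every continuous derivation into a dual Banach bimodule is inner. -/
def IsAmenable (A : Type) [NonUnitalNormedRing A] [NormedSpace ℂ A] : Prop :=
  ∀ (X : Type u) [NormedAddCommGroup X] [NormedSpace ℂ X] [CompleteSpace X] (M : Bimodule A X)
    (D : A →L[ℂ] StrongDual ℂ X), M.IsDerivation D → ∃ ξ, ∀ a, D a = M.ad ξ ξ a

end amen

/-- Pairs of a convergent scalar sequence and a null sequence in `A`, with the sum of the
supremum norms. -/
def Amp (A : Type) [NonUnitalNormedRing A] : Type := WithLp 1 (C(OnePoint ℕ, ℂ) × C₀(ℕ, A))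

namespace Amp

variable {A : Type} [NonUnitalNormedRing A]

noncomputable instance : NormedAddCommGroup (Amp A) :=
  inferInstanceAs (NormedAddCommGroup (WithLp 1 (C(OnePoint ℕ, ℂ) × C₀(ℕ, A))))

instance [CompleteSpace A] : CompleteSpace (Amp A) :=
  inferInstanceAs (CompleteSpace (WithLp 1 (C(OnePoint ℕ, ℂ) × C₀(ℕ, A))))

/-- The scalar sequence. -/
def sc (s : Amp A) : C(OnePoint ℕ, ℂ) := WithLp.fst s

/-- The null sequence. -/
def ve (s : Amp A) : C₀(ℕ, A) := WithLp.snd s

/-- The pair with given components. -/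
def mk (l : C(OnePoint ℕ, ℂ)) (b : C₀(ℕ, A)) : Amp A := WithLp.toLp 1 (l, b)

lemma ext {s t : Amp A} (h1 : s.sc = t.sc) (h2 : ∀ n, s.ve n = t.ve n) : s = t :=
  WithLp.ofLp_injective 1 (Prod.ext h1 (ZeroAtInftyContinuousMap.ext h2))

lemma norm_def (s : Amp A) : ‖s‖ = ‖s.sc‖ + ‖s.ve‖ := WithLp.prod_norm_eq_of_L1 s

lemma ve_le (b : C₀(ℕ, A)) (n : ℕ) : ‖b n‖ ≤ ‖b‖ := b.toBCF.norm_coe_le_norm n

variable [NormedSpace ℂ A]

lemma term_le (l l' : C(OnePoint ℕ, ℂ)) (x y : A) (n : ℕ) :
    ‖l n • y + l' n • x + ((n : ℂ) + 1)⁻¹ • (x * y)‖ ≤ ‖l‖ * ‖y‖ + ‖l'‖ * ‖x‖ + ‖x‖ * ‖y‖ := by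
  have h : ‖((n : ℂ) + 1)⁻¹‖ ≤ 1 := by
    rw [norm_inv, ← Nat.cast_succ, Complex.norm_natCast]
    exact inv_le_one_of_one_le₀ (by simp)
  refine norm_add₃_le.trans ?_
  rw [norm_smul, norm_smul, norm_smul, ← one_mul (‖x‖ * ‖y‖)]
  gcongr
  exacts [l.norm_coe_le_norm _, l'.norm_coe_le_norm _, norm_mul_le x y]

/-- `(l, b) (l', b') = (l l', n ↦ l n • b' n + l' n • b n + (n + 1)⁻¹ • b n b' n)`. -/
noncomputable def mul (s t : Amp A) : Amp A :=
  mk (s.sc * t.sc)
    { toFun := fun n => s.sc n • t.ve n + t.sc n • s.ve n + ((n : ℂ) + 1)⁻¹ • (s.ve n * t.ve n)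
      continuous_toFun := continuous_of_discreteTopology
      zero_at_infty' := squeeze_zero_norm (fun n => term_le _ _ _ _ n) <| by
        have h1 := (zero_at_infty s.ve).norm
        have h2 := (zero_at_infty t.ve).norm
        simpa using ((h2.const_mul ‖s.sc‖).add (h1.const_mul ‖t.sc‖)).add (h1.mul h2) }

lemma sc_mul' (s t : Amp A) : (mul s t).sc = s.sc * t.sc := rfl

lemma ve_mul' (s t : Amp A) (n : ℕ) : (mul s t).ve n =
    s.sc n • t.ve n + t.sc n • s.ve n + ((n : ℂ) + 1)⁻¹ • (s.ve n * t.ve n) := rfl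

lemma ve_add (s t : Amp A) (n : ℕ) : (s + t).ve n = s.ve n + t.ve n := rfl

lemma sc_add (s t : Amp A) : (s + t).sc = s.sc + t.sc := rfl

variable [IsScalarTower ℂ A A] [SMulCommClass ℂ A A]

noncomputable instance : NormedRing (Amp A) :=
  { (inferInstance : NormedAddCommGroup (Amp A)) with
    mul := mul
    one := mk 1 0
    left_distrib := fun x y z => ext (mul_add x.sc y.sc z.sc) fun n => by
      show (mul x (y + z)).ve n = (mul x y + mul x z).ve n
      simp only [ve_mul', ve_add, sc_add, ContinuousMap.add_apply, mul_add]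
      module
    right_distrib := fun x y z => ext (add_mul x.sc y.sc z.sc) fun n => by
      show (mul (x + y) z).ve n = (mul x z + mul y z).ve n
      simp only [ve_mul', ve_add, sc_add, ContinuousMap.add_apply, add_mul]
      module
    zero_mul := fun x => ext (zero_mul x.sc) fun n => by
      show (0 : ℂ) • x.ve n + x.sc n • (0 : A) + ((n : ℂ) + 1)⁻¹ • (0 * x.ve n) = 0
      simp
    mul_zero := fun x => ext (mul_zero x.sc) fun n => by
      show x.sc n • (0 : A) + (0 : ℂ) • x.ve n + ((n : ℂ) + 1)⁻¹ • (x.ve n * 0) = 0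
      simp
    mul_assoc := fun x y z => ext (mul_assoc x.sc y.sc z.sc) fun n => by
      show (mul (mul x y) z).ve n = (mul x (mul y z)).ve n
      simp only [ve_mul', sc_mul', ContinuousMap.mul_apply, mul_add, add_mul, smul_mul_assoc,
        mul_smul_comm, mul_assoc]
      module
    one_mul := fun x => ext (one_mul x.sc) fun n => by
      show (1 : ℂ) • x.ve n + x.sc n • (0 : A) + ((n : ℂ) + 1)⁻¹ • (0 * x.ve n) = x.ve n
      simp
    mul_one := fun x => ext (mul_one x.sc) fun n => by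
      show x.sc n • (0 : A) + (1 : ℂ) • x.ve n + ((n : ℂ) + 1)⁻¹ • (x.ve n * 0) = x.ve n
      simp
    norm_mul_le := fun x y => by
      show ‖mul x y‖ ≤ _
      have h : ‖(mul x y).ve‖ ≤ ‖x.sc‖ * ‖y.ve‖ + ‖y.sc‖ * ‖x.ve‖ + ‖x.ve‖ * ‖y.ve‖ :=
        (BoundedContinuousFunction.norm_le (by positivity)).2 fun n =>
          (term_le _ _ _ _ n).trans (by gcongr <;> exact ve_le _ n)
      have h' := norm_mul_le x.sc y.sc
      rw [norm_def, norm_def x, norm_def y, sc_mul']
      linarith }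

noncomputable instance : NormedSpace ℂ (Amp A) :=
  inferInstanceAs (NormedSpace ℂ (WithLp 1 (C(OnePoint ℕ, ℂ) × C₀(ℕ, A))))

lemma sc_smul (c : ℂ) (s : Amp A) : (c • s).sc = c • s.sc := rfl

lemma ve_smul (c : ℂ) (s : Amp A) (n : ℕ) : (c • s).ve n = c • s.ve n := rfl

lemma sc_mul (s t : Amp A) : (s * t).sc = s.sc * t.sc := rfl

lemma ve_mul (s t : Amp A) (n : ℕ) : (s * t).ve n =
    s.sc n • t.ve n + t.sc n • s.ve n + ((n : ℂ) + 1)⁻¹ • (s.ve n * t.ve n) := rfl

noncomputable instance : NormedAlgebra ℂ (Amp A) :=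
  { Algebra.ofModule
      (fun c x y => ext (by simp only [sc_smul, sc_mul, smul_mul_assoc]) fun n => by
        simp only [ve_mul, ve_smul, sc_smul, ContinuousMap.smul_apply, smul_mul_assoc]
        module)
      (fun c x y => ext (by simp only [sc_smul, sc_mul, mul_smul_comm]) fun n => by
        simp only [ve_mul, ve_smul, sc_smul, ContinuousMap.smul_apply, mul_smul_comm]
        module) with
    norm_smul_le := norm_smul_le }

end Amp

end Pool.Agent.P.MP_98688b_an
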