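import Mathlib
import Pool.Agent.P.MP_98688b_an.AmpDefs

/-!
General facts on derivations into dual bimodules: nets, iteration, sums of modules, idempotents.
-/

namespace Pool.Agent.P.MP_98688b_an

open Filter Topology

set_option linter.unusedSectionVars false
set_option maxSynthPendingDepth 3

universe u v

variable {A : Type} [NonUnitalNormedRing A] [NormedSpace ℂ A]
  {X : Type u} [NormedAddCommGroup X] [NormedSpace ℂ X]

namespace Bimodule

variable (M : Bimodule A X)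

/-- The left action on the dual as a bilinear map. -/
noncomputable def dL : A →L[ℂ] StrongDual ℂ X →L[ℂ] StrongDual ℂ X :=
  (ContinuousLinearMap.compL ℂ X X ℂ).flip ∘L M.right

/-- The right action on the dual as a bilinear map. -/
noncomputable def dR : A →L[ℂ] StrongDual ℂ X →L[ℂ] StrongDual ℂ X :=
  (ContinuousLinearMap.compL ℂ X X ℂ).flip ∘L M.left

lemma dL_apply (a : A) (f : StrongDual ℂ X) (x : X) : M.dL a f x = f (M.right a x) := rfl

lemma dR_apply (a : A) (f : StrongDual ℂ X) (x : X) : M.dR a f x = f (M.left a x) := rfl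

lemma ad_eq (ξ η : StrongDual ℂ X) (a : A) : M.ad ξ η a = M.dL a ξ - M.dR a η := rfl

lemma ad_apply (ξ η : StrongDual ℂ X) (a : A) (x : X) :
    M.ad ξ η a x = ξ (M.right a x) - η (M.left a x) := rfl

lemma dL_mul (a b : A) (f : StrongDual ℂ X) : M.dL (a * b) f = M.dL a (M.dL b f) := by
  ext x; simp only [dL_apply, M.right_mul]

lemma dR_mul (a b : A) (f : StrongDual ℂ X) : M.dR (a * b) f = M.dR b (M.dR a f) := by
  ext x; simp only [dR_apply, M.left_mul]

lemma dL_dR (a b : A) (f : StrongDual ℂ X) : M.dL a (M.dR b f) = M.dR b (M.dL a f) := by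
  ext x; simp only [dL_apply, dR_apply, M.left_right]

variable {M} {D : A →L[ℂ] StrongDual ℂ X}

lemma IsDerivation.eq (h : M.IsDerivation D) (a b : A) :
    D (a * b) = M.dL a (D b) + M.dR b (D a) := h a b

/-! ### Nets -/

lemma fin_of_net {ι : Type v} [Preorder ι] [IsDirectedOrder ι] [Nonempty ι] {g : ι → A → ℝ}
    (h : ∀ a, Tendsto (fun i => g i a) atTop (𝓝 0)) (F : Finset A) {ε : ℝ} (hε : 0 < ε) :
    ∃ i, ∀ a ∈ F, g i a < ε :=
  ((eventually_all_finset F).2 fun a _ => (h a).eventually (gt_mem_nhds hε)).exists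

lemma net_of_fin {P : Type*} {g : P → A → ℝ} (h0 : ∀ p a, 0 ≤ g p a)
    (h : ∀ (F : Finset A) (ε : ℝ), 0 < ε → ∃ p, ∀ a ∈ F, g p a < ε) :
    ∃ (ι : Type v) (_ : Preorder ι) (_ : IsDirectedOrder ι) (_ : Nonempty ι) (p : ι → P),
      ∀ a, Tendsto (fun i => g (p i) a) atTop (𝓝 0) := by
  classical
  choose p hp using fun i : Finset A × ℕ => h i.1 (1 / ((i.2 : ℝ) + 1)) (by positivity)
  have hdir : IsDirectedOrder (ULift.{v} (Finset A × ℕ)) :=
    ⟨fun x y => ⟨ULift.up (x.down ⊔ y.down), (le_sup_left : x.down ≤ _),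
      (le_sup_right : y.down ≤ _)⟩⟩
  refine ⟨ULift.{v} (Finset A × ℕ), inferInstance, hdir, inferInstance, fun i => p i.down,
    fun a => Metric.tendsto_atTop.2 fun ε hε => ?_⟩
  obtain ⟨n, hn⟩ := exists_nat_one_div_lt hε
  refine ⟨ULift.up ({a}, n), fun i hi => ?_⟩
  have hi' : (({a}, n) : Finset A × ℕ) ≤ i.down := hi
  have hn' : (n : ℝ) ≤ i.down.2 := by exact_mod_cast hi'.2
  rw [Real.dist_0_eq_abs, abs_of_nonneg (h0 _ _)]
  calc _ < 1 / ((i.down.2 : ℝ) + 1) := hp i.down a (hi'.1 (Finset.mem_singleton_self a))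
    _ ≤ 1 / ((n : ℝ) + 1) := by gcongr
    _ < ε := hn

lemma approxInner_iff : IsApproxInner.{u, v} M D ↔
    ∀ (F : Finset A) (ε : ℝ), 0 < ε → ∃ ξ, ∀ a ∈ F, ‖M.ad ξ ξ a - D a‖ < ε := by
  refine ⟨fun ⟨_, _, _, _, ξ, h⟩ F ε hε => ?_, fun h => net_of_fin (fun _ _ => norm_nonneg _) h⟩
  obtain ⟨i, hi⟩ := fin_of_net h F hε
  exact ⟨ξ i, hi⟩

lemma IsApproxInner.semi (h : IsApproxInner.{u, v} M D) : IsApproxSemiInner.{u, v} M D := by
  obtain ⟨ι, _, _, _, ξ, h⟩ := h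
  exact ⟨ι, _, ‹_›, ‹_›, ξ, ξ, h⟩

/-! ### Iteration -/

variable (M) in
/-- The inner derivation as a continuous linear map. -/
noncomputable def adL (ξ : StrongDual ℂ X) : A →L[ℂ] StrongDual ℂ X := (M.dL - M.dR).flip ξ

lemma adL_apply (ξ : StrongDual ℂ X) (a : A) : M.adL ξ a = M.ad ξ ξ a := rfl

lemma IsDerivation.sub_adL (h : M.IsDerivation D) (ξ : StrongDual ℂ X) :
    M.IsDerivation (D - M.adL ξ) := fun a b => by
  show D (a * b) - M.ad ξ ξ (a * b) = M.dL a (D b - M.ad ξ ξ b) + M.dR b (D a - M.ad ξ ξ a)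
  simp only [h.eq, ad_eq, map_sub, dL_mul, dR_mul, dL_dR]
  abel

lemma inner_of_half {c : ℝ} (H : ∀ d, M.IsDerivation d → ∃ ξ, ‖ξ‖ ≤ c * ‖d‖ ∧
    ‖d - M.adL ξ‖ ≤ ‖d‖ / 2) (h : M.IsDerivation D) : ∃ ξ, ∀ a, D a = M.ad ξ ξ a := by
  choose! z hz1 hz2 using H
  let d : ℕ → A →L[ℂ] StrongDual ℂ X := fun n => (fun e => e - M.adL (z e))^[n] D
  have ds : ∀ n, d (n + 1) = d n - M.adL (z (d n)) := fun n => Function.iterate_succ_apply' _ _ _
  have h1 : ∀ n, M.IsDerivation (d n) ∧ ‖d n‖ ≤ ‖D‖ * (1 / 2) ^ n := fun n => by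
    induction n with
    | zero => exact ⟨h, by simp [d]⟩
    | succ n ih =>
      rw [ds]
      exact ⟨ih.1.sub_adL _, (hz2 _ ih.1).trans (by rw [pow_succ]; linarith [ih.2])⟩
  have hs : Summable fun n => z (d n) := by
    refine .of_norm_bounded (summable_geometric_two.mul_left (|c| * ‖D‖)) fun n => ?_
    refine (hz1 _ (h1 n).1).trans ?_
    rw [mul_assoc]
    gcongr
    exacts [le_abs_self c, (h1 n).2]
  have h2 : Tendsto d atTop (𝓝 0) := squeeze_zero_norm (fun n => (h1 n).2) (by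
    simpa using (tendsto_pow_atTop_nhds_zero_of_lt_one (r := (1 / 2 : ℝ)) (by norm_num)
      (by norm_num)).const_mul ‖D‖)
  have h3 := ((M.dL - M.dR).flip.hasSum hs.hasSum).tendsto_sum_nat
  have h4 : ∀ n, ∑ i ∈ Finset.range n, (M.dL - M.dR).flip (z (d i)) = D - d n := fun n => by
    rw [show D = d 0 from rfl, ← Finset.sum_range_sub']
    exact Finset.sum_congr rfl fun i _ => by rw [ds, sub_sub_cancel]; rfl
  simp only [h4] at h3
  have h5 := tendsto_nhds_unique h3 (h2.const_sub D)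
  rw [sub_zero] at h5
  exact ⟨∑' n, z (d n), fun a => by rw [← adL_apply, adL, h5]⟩

/-! ### Central idempotents -/

section idem

variable (h : M.IsDerivation D) {q : A} (hq : q * q = q)
include h hq

lemma corner_self : M.dL q (M.dR q (D q)) = 0 := by
  have e := congrArg (fun f => M.dL q (M.dR q f)) (h.eq q q)
  simp only [hq, map_add, ← dR_mul, ← dL_dR, ← dL_mul] at e
  simpa using e

lemma corner_mul {s : A} (hs : q * s = s * q) :
    M.dL q (M.dR q (D (s * q))) = M.dL q (M.dR q (D s)) := by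
  rw [h.eq, map_add, map_add, ← dR_mul, hq, ← dL_dR, ← dL_mul, hs, dL_mul, corner_self h hq,
    map_zero, zero_add]

lemma ad_left {s : A} (hs : q * s = s * q) : M.ad (M.dL q (D q)) (M.dL q (D q)) s =
    M.dL q (D s) - M.dL q (M.dR q (D s)) := by
  have e := congrArg (M.dL q) ((h.eq q s).symm.trans (hs ▸ h.eq s q))
  simp only [map_add, ← dL_mul, hq, hs] at e
  rw [ad_eq, ← dL_mul, ← dL_dR, sub_eq_sub_iff_add_eq_add, e]

lemma ad_right {s : A} (h1 : q * s = s) (h2 : s * q = s) :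
    M.ad (M.dR q (D q)) (M.dR q (D q)) s = M.dL q (D s) - D s := by
  have e := h.eq q s
  rw [h1] at e
  rw [ad_eq, ← dR_mul, h1, ← h2, dL_mul, corner_self h hq, map_zero, h2, eq_sub_iff_add_eq]
  conv_lhs => rw [e]
  abel

omit h in
lemma ad_corner {s : A} (hs : q * s = s * q) (ζ : StrongDual ℂ X) :
    M.ad (M.dL q (M.dR q ζ)) (M.dL q (M.dR q ζ)) s = M.dL q (M.dR q (M.ad ζ ζ (s * q))) := by
  simp only [ad_eq, map_sub, ← dL_dR, ← dL_mul, ← dR_mul]
  rw [mul_assoc, hq, ← mul_assoc, hs, mul_assoc, hq]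

omit h in
lemma corner_ad (ζ : StrongDual ℂ X) : M.dL q (M.dR q (M.ad ζ ζ q)) = 0 := by
  simp only [ad_eq, map_sub, ← dL_dR, ← dL_mul, ← dR_mul, hq, sub_self]

end idem

lemma corner_le (q : A) (hq : ‖q‖ ≤ 1) (f : StrongDual ℂ X) :
    ‖M.dL q (M.dR q f)‖ ≤ ‖M.dL‖ * ‖M.dR‖ * ‖f‖ := by
  calc _ ≤ ‖M.dL‖ * ‖q‖ * (‖M.dR‖ * ‖q‖ * ‖f‖) :=
        (M.dL.le_opNorm₂ _ _).trans (by gcongr; exact M.dR.le_opNorm₂ _ _)
    _ ≤ ‖M.dL‖ * 1 * (‖M.dR‖ * 1 * ‖f‖) := by gcongr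
    _ = _ := by ring

end Bimodule

/-! ### Sums of modules -/

section sum

variable {I : Type u} {Z W : Type} [NormedAddCommGroup Z] [NormedSpace ℂ Z] [NormedAddCommGroup W]
  [NormedSpace ℂ W]

lemma dg_le {T : I → A →L[ℂ] Z →L[ℂ] W} {C : ℝ} (hT : ∀ i, ‖T i‖ ≤ C) (a : A)
    (x : lp (fun _ : I => Z) 1) (i : I) : ‖T i a (x i)‖ ≤ ‖(((|C| * ‖a‖ : ℝ) : ℂ) • x) i‖ := by
  rw [lp.coeFn_smul, Pi.smul_apply, norm_smul, Complex.norm_real,
    Real.norm_of_nonneg (by positivity)]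
  exact ((T i).le_opNorm₂ _ _).trans (by gcongr; exact (hT i).trans (le_abs_self C))

/-- The diagonal action on the sum. -/
noncomputable def dg (T : I → A →L[ℂ] Z →L[ℂ] W) {C : ℝ} (hT : ∀ i, ‖T i‖ ≤ C) :
    A →L[ℂ] lp (fun _ : I => Z) 1 →L[ℂ] lp (fun _ : I => W) 1 :=
  LinearMap.mkContinuous₂ (LinearMap.mk₂ ℂ
    (fun a x => ⟨fun i => T i a (x i), (lp.memℓp _).mono' (dg_le hT a x)⟩)
    (fun a b x => lp.ext (funext fun i => DFunLike.congr_fun (map_add (T i) a b) (x i)))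
    (fun c a x => lp.ext (funext fun i => DFunLike.congr_fun (map_smul (T i) c a) (x i)))
    (fun a x y => lp.ext (funext fun i => map_add (T i a) (x i) (y i)))
    (fun c a x => lp.ext (funext fun i => map_smul (T i a) c (x i)))) |C| fun a x =>
      (lp.norm_mono one_ne_zero (dg_le hT a x)).trans_eq (by
        rw [norm_smul, Complex.norm_real, Real.norm_of_nonneg (by positivity)])

lemma dg_apply (T : I → A →L[ℂ] Z →L[ℂ] W) {C : ℝ} (hT : ∀ i, ‖T i‖ ≤ C) (a : A)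
    (x : lp (fun _ : I => Z) 1) (i : I) : dg T hT a x i = T i a (x i) := rfl

lemma dg_single [DecidableEq I] (T : I → A →L[ℂ] Z →L[ℂ] W) {C : ℝ} (hT : ∀ i, ‖T i‖ ≤ C) (a : A)
    (i : I) (z : Z) : dg T hT a (lp.single 1 i z) = lp.single 1 i (T i a z) := by
  refine lp.ext (funext fun j => ?_)
  rw [dg_apply, lp.single_apply, lp.single_apply]
  exact Pi.apply_single (fun j => T j a) (fun _ => map_zero _) i z j

/-- A bounded family of modules and derivations is contained in a single one. -/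
lemma exists_sum (M : I → Bimodule A Z) (D : I → A →L[ℂ] StrongDual ℂ Z) {C : ℝ}
    (h1 : ∀ i, ‖(M i).left‖ ≤ C) (h2 : ∀ i, ‖(M i).right‖ ≤ C) (h3 : ∀ i, ‖D i‖ ≤ C)
    (hD : ∀ i, (M i).IsDerivation (D i)) :
    ∃ (N : Bimodule A (lp (fun _ : I => Z) 1)) (E : A →L[ℂ] StrongDual ℂ (lp (fun _ : I => Z) 1))
      (ρ : I → StrongDual ℂ (lp (fun _ : I => Z) 1) →+ StrongDual ℂ Z), N.IsDerivation E ∧
      ∀ i, (∀ f, ‖ρ i f‖ ≤ ‖f‖) ∧ (∀ a, ρ i (E a) = D i a) ∧
        ∀ ξ η a, ρ i (N.ad ξ η a) = (M i).ad (ρ i ξ) (ρ i η) a := by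
  classical
  let N : Bimodule A (lp (fun _ : I => Z) 1) :=
    { left := dg _ h1
      right := dg _ h2
      left_mul := fun a b x => lp.ext (funext fun i => (M i).left_mul a b _)
      right_mul := fun a b x => lp.ext (funext fun i => (M i).right_mul a b _)
      left_right := fun a b x => lp.ext (funext fun i => (M i).left_right a b _) }
  let s := lp.singleContinuousLinearMap ℂ (fun _ : I => Z) 1
  refine ⟨N, ContinuousLinearMap.compL ℂ _ _ _ (lp.tsumCLM ℂ I ℂ) ∘L dg D h3,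
    fun i => ((ContinuousLinearMap.compL ℂ _ _ ℂ).flip (s i) : _ →L[ℂ] _), fun a b => ?_,
    fun i => ⟨fun f => ?_, fun a => ?_, fun ξ η a => ?_⟩⟩
  · ext1 x
    show lp.tsumCLM ℂ I ℂ (dg D h3 (a * b) x) =
      lp.tsumCLM ℂ I ℂ (dg D h3 b (dg _ h2 a x)) + lp.tsumCLM ℂ I ℂ (dg D h3 a (dg _ h1 b x))
    rw [← map_add]
    exact congrArg _ (lp.ext (funext fun i => DFunLike.congr_fun (hD i a b) (x i)))
  · refine ContinuousLinearMap.opNorm_le_bound _ (norm_nonneg f) fun z => ?_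
    exact (f.le_opNorm (lp.single 1 i z)).trans_eq (by rw [lp.norm_single one_pos])
  · ext z
    show lp.tsumCLM ℂ I ℂ (dg D h3 a (lp.single 1 i z)) = _
    rw [dg_single, lp.tsumCLM_apply, tsum_eq_single i fun j hj => lp.single_apply_ne _ _ _ hj,
      lp.single_apply_self]
  · ext z
    show ξ (dg _ h2 a (lp.single 1 i z)) - η (dg _ h1 a (lp.single 1 i z)) = _
    rw [dg_single, dg_single]
    rfl

end sum

end Pool.Agent.P.MP_98688b_an
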