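import Mathlib
import Pool.Agent.P.MP_98688b_an.AmpAbs

/-!
Coordinates on `Amp A`, and the passage from `A` to `Amp A`.
-/

namespace Pool.Agent.P.MP_98688b_an

open Filter Topology ZeroAtInfty
open OnePoint hiding map_smul

set_option linter.unusedSectionVars false
set_option maxSynthPendingDepth 3

universe u v w

/-- Pull-back of a bimodule along a homomorphism. -/
noncomputable def Bimodule.comap {A B : Type} [NonUnitalNormedRing A] [NormedSpace ℂ A]
    [NonUnitalNormedRing B] [NormedSpace ℂ B] {X : Type u} [NormedAddCommGroup X] [NormedSpace ℂ X]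
    (M : Bimodule B X) (φ : A →L[ℂ] B) (h : ∀ a b, φ (a * b) = φ a * φ b) : Bimodule A X where
  left := M.left ∘L φ
  right := M.right ∘L φ
  left_mul a b x := (congrArg (M.left · x) (h a b)).trans (M.left_mul _ _ x)
  right_mul a b x := (congrArg (M.right · x) (h a b)).trans (M.right_mul _ _ x)
  left_right _ _ x := M.left_right _ _ x

namespace Amp

variable {A : Type} [NonUnitalNormedRing A] [NormedSpace ℂ A] [IsScalarTower ℂ A A]
  [SMulCommClass ℂ A A]

lemma sc_le (s : Amp A) (x : OnePoint ℕ) : ‖s.sc x‖ ≤ ‖s‖ :=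
  (s.sc.norm_coe_le_norm x).trans (by rw [norm_def]; exact le_add_of_nonneg_right (norm_nonneg _))

/-- The scalar coordinate. -/
noncomputable def lam (x : OnePoint ℕ) : Amp A →L[ℂ] ℂ :=
  LinearMap.mkContinuous ⟨⟨fun s => s.sc x, fun _ _ => rfl⟩, fun _ _ => rfl⟩ 1 fun s =>
    (sc_le s x).trans_eq (one_mul _).symm

/-- The vector coordinate. -/
noncomputable def bet (n : ℕ) : Amp A →L[ℂ] A :=
  LinearMap.mkContinuous ⟨⟨fun s => s.ve n, fun _ _ => rfl⟩, fun _ _ => rfl⟩ 1 fun s =>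
    (ve_le s.ve n).trans (by rw [one_mul, norm_def]; exact le_add_of_nonneg_left (norm_nonneg _))

lemma norm_lam (x : OnePoint ℕ) : ‖(lam x : Amp A →L[ℂ] ℂ)‖ ≤ 1 :=
  LinearMap.mkContinuous_norm_le _ zero_le_one _

lemma norm_bet (n : ℕ) : ‖(bet n : Amp A →L[ℂ] A)‖ ≤ 1 :=
  LinearMap.mkContinuous_norm_le _ zero_le_one _

/-- The scale of the `n`-th product. -/
noncomputable abbrev r (n : ℕ) : ℂ := ((n : ℂ) + 1)⁻¹

lemma norm_r (n : ℕ) : ‖r n‖ = 1 / ((n : ℝ) + 1) := by
  rw [norm_inv, ← Nat.cast_succ, Complex.norm_natCast, one_div, Nat.cast_succ]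

lemma lam_mul (x : OnePoint ℕ) (s t : Amp A) : lam x (s * t) = lam x s * lam x t := rfl

lemma bet_mul (n : ℕ) (s t : Amp A) : bet n (s * t) =
    lam n s • bet n t + lam n t • bet n s + r n • (bet n s * bet n t) := rfl

lemma lam_one (x : OnePoint ℕ) : lam x (1 : Amp A) = 1 := rfl

lemma bet_one (n : ℕ) : bet n (1 : Amp A) = 0 := rfl

lemma tendsto_lam (s : Amp A) : Tendsto (fun n : ℕ => lam n s) atTop (𝓝 (lam ∞ s)) :=
  (continuous_iff_from_nat _).1 s.sc.continuous

lemma tendsto_bet (s : Amp A) : Tendsto (fun n : ℕ => bet n s) atTop (𝓝 0) := by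
  have := zero_at_infty s.ve
  rwa [cocompact_eq_cofinite, Nat.cofinite_eq_atTop] at this

lemma norm_le {s : Amp A} {a b : ℝ} (h1 : ∀ n : ℕ, ‖lam n s‖ ≤ a) (h2 : ∀ n, ‖bet n s‖ ≤ b) :
    ‖s‖ ≤ a + b := by
  rw [norm_def]
  refine add_le_add ((ContinuousMap.norm_le _ ((norm_nonneg _).trans (h1 0))).2 fun x => ?_)
    ((BoundedContinuousFunction.norm_le ((norm_nonneg _).trans (h2 0))).2 h2)
  induction x using OnePoint.rec with
  | infty => exact le_of_tendsto' (tendsto_lam s).norm h1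
  | coe n => exact h1 n

lemma ext' {s t : Amp A} (h1 : ∀ n : ℕ, lam n s = lam n t) (h2 : ∀ n, bet n s = bet n t) :
    s = t := by
  have := norm_le (s := s - t) (a := 0) (b := 0) (fun n => by simp [h1]) fun n => by simp [h2]
  simpa [sub_eq_zero] using this

lemma tendsto_single {Y : Type} [TopologicalSpace Y] [Zero Y] (k : ℕ) (y : Y) :
    Tendsto (fun n => if n = k then y else 0) atTop (𝓝 0) :=
  tendsto_const_nhds.congr' ((eventually_ne_atTop k).mono fun _ h => (if_neg h).symm)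

/-- The identity of the `k`-th block. -/
noncomputable def e (k : ℕ) : Amp A :=
  mk (continuousMapMkNat (fun n => if n = k then 1 else 0) 0 (tendsto_single k 1)) 0

lemma lam_e (n k : ℕ) : lam n (e k : Amp A) = if n = k then 1 else 0 := rfl

lemma bet_e (n k : ℕ) : bet n (e k : Amp A) = 0 := rfl

/-- A vector in the `k`-th block. -/
noncomputable def j0 (k : ℕ) (a : A) : Amp A :=
  mk 0 ⟨⟨fun n => if n = k then a else 0, continuous_of_discreteTopology⟩, by
    simpa [Nat.cofinite_eq_atTop] using tendsto_single k a⟩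

lemma lam_j0 (x : OnePoint ℕ) (k : ℕ) (a : A) : lam x (j0 k a) = 0 := rfl

lemma bet_j0 (n k : ℕ) (a : A) : bet n (j0 k a) = if n = k then a else 0 := rfl

lemma norm_j0 (k : ℕ) (a : A) : ‖j0 k a‖ ≤ 1 * ‖a‖ := by
  simpa using norm_le (s := j0 k a) (a := 0) (b := ‖a‖) (fun n => by simp [lam_j0]) fun n => by
    rw [bet_j0]; split_ifs <;> simp

/-- The inclusion of the `k`-th block. -/
noncomputable def j (k : ℕ) : A →L[ℂ] Amp A :=
  LinearMap.mkContinuous ⟨⟨j0 k, fun a b => ext' (fun n => by simp [lam_j0]) fun n => by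
      simp only [map_add, bet_j0]; split_ifs <;> simp⟩,
    fun c a => ext' (fun n => by simp [lam_j0]) fun n => by simp [bet_j0]⟩ 1 (norm_j0 k)

lemma lam_j (x : OnePoint ℕ) (k : ℕ) (a : A) : lam x (j k a) = 0 := rfl

lemma bet_j (n k : ℕ) (a : A) : bet n (j k a) = if n = k then a else 0 := rfl

lemma norm_j (k : ℕ) (a : A) : ‖j k a‖ ≤ ‖a‖ := (norm_j0 k a).trans_eq (one_mul _)

/-- The complement of the first `N` blocks. -/
noncomputable def f (N : ℕ) : Amp A := 1 - ∑ k ∈ Finset.range N, e k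

lemma lam_f (n N : ℕ) : lam n (f N : Amp A) = if n < N then 0 else 1 := by
  simp only [f, map_sub, map_sum, lam_one, lam_e, Finset.sum_ite_eq, Finset.mem_range]
  split_ifs <;> simp

lemma bet_f (n N : ℕ) : bet n (f N : Amp A) = 0 := by simp [f, bet_one, bet_e]

lemma central {q : Amp A} (hq : ∀ n, bet n q = 0) (s : Amp A) : q * s = s * q :=
  ext' (fun n => mul_comm (lam n q) (lam n s)) fun n => by simp [bet_mul, hq]

lemma idem {q : Amp A} (hq : ∀ n, bet n q = 0) (h : ∀ n : ℕ, lam n q = 0 ∨ lam n q = 1) :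
    q * q = q ∧ ‖q‖ ≤ 1 :=
  ⟨ext' (fun n => by rcases h n with e | e <;> simp [lam_mul, e]) fun n => by simp [bet_mul, hq],
    by simpa using norm_le (s := q) (a := 1) (b := 0) (fun n => by
      rcases h n with e | e <;> simp [e]) fun n => by simp [hq]⟩

lemma idem_e (k : ℕ) : (e k * e k : Amp A) = e k ∧ ‖(e k : Amp A)‖ ≤ 1 :=
  idem (bet_e · k) fun n => by rw [lam_e]; split_ifs <;> simp

lemma idem_f (N : ℕ) : (f N * f N : Amp A) = f N ∧ ‖(f N : Amp A)‖ ≤ 1 :=
  idem (bet_f · N) fun n => by rw [lam_f]; split_ifs <;> simp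

lemma norm_one_le : ‖(1 : Amp A)‖ ≤ 1 := (idem bet_one fun _ => .inr rfl).2

lemma mul_e (s : Amp A) (k : ℕ) : s * e k = lam k s • e k + j k (bet k s) :=
  ext' (fun n => by by_cases h : n = k <;> simp [lam_mul, lam_e, lam_j, h]) fun n => by
    by_cases h : n = k <;> simp [bet_mul, lam_e, bet_e, bet_j, h]

/-- The homomorphism onto the ideal of the `k`-th block. -/
noncomputable def io (k : ℕ) : A →L[ℂ] Amp A := ((k : ℂ) + 1) • j k

lemma io_mul (k : ℕ) (a b : A) : io k (a * b) = io k a * io k b :=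
  ext' (fun n => by simp [io, lam_mul, lam_j]) fun n => by
    by_cases h : n = k
    · simp [io, bet_mul, lam_j, bet_j, h, smul_smul, Nat.cast_add_one_ne_zero]
    · simp [io, bet_mul, lam_j, bet_j, h]

lemma io_r (k : ℕ) (a : A) : io k (r k • a) = j k a := by
  simp [io, smul_smul, Nat.cast_add_one_ne_zero]

/-- The tail of an element. -/
noncomputable def tl (s : Amp A) (N : ℕ) : Amp A := (s - lam ∞ s • 1) * f N

lemma norm_tl (s : Amp A) (N : ℕ) : ‖tl s N‖ ≤ 2 * ‖s‖ := by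
  have h : ‖lam ∞ s • (1 : Amp A)‖ ≤ ‖s‖ * 1 :=
    (norm_smul_le _ _).trans (mul_le_mul (sc_le s _) norm_one_le (norm_nonneg _) (norm_nonneg _))
  calc _ ≤ (‖s‖ + ‖s‖ * 1) * 1 := (norm_mul_le _ _).trans (mul_le_mul
        ((norm_sub_le _ _).trans (by gcongr)) (idem_f N).2 (norm_nonneg _) (by positivity))
    _ = _ := by ring

lemma tendsto_tl (s : Amp A) : Tendsto (fun N => ‖tl s N‖) atTop (𝓝 0) := by
  refine Metric.tendsto_atTop.2 fun ε hε => ?_
  obtain ⟨N1, h1⟩ := Metric.tendsto_atTop.1 (tendsto_lam s) (ε / 3) (by positivity)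
  obtain ⟨N2, h2⟩ := Metric.tendsto_atTop.1 (tendsto_bet s) (ε / 3) (by positivity)
  refine ⟨max N1 N2, fun N hN => ?_⟩
  rw [Real.dist_0_eq_abs, abs_norm]
  refine (norm_le (a := ε / 3) (b := ε / 3) (fun n => ?_) fun n => ?_).trans_lt (by linarith)
  · by_cases h : n < N
    · simp [tl, lam_mul, lam_f, h, hε.le, div_nonneg]
    · simpa [tl, lam_mul, lam_f, h, lam_one, dist_eq_norm] using (h1 n (by omega)).le
  · by_cases h : n < N
    · simp [tl, bet_mul, lam_f, bet_f, h, hε.le, div_nonneg]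
    · simpa [tl, bet_mul, lam_f, bet_f, h, bet_one] using (h2 n (by omega)).le

variable {X : Type u} [NormedAddCommGroup X] [NormedSpace ℂ X] {M : Bimodule (Amp A) X}
  {D : Amp A →L[ℂ] StrongDual ℂ X}

open Bimodule in
lemma decomp (h : M.IsDerivation D) (N : ℕ) (ζ : ℕ → StrongDual ℂ X) : ∃ ξ, ∀ s,
    M.ad ξ ξ s - D s = ∑ k ∈ Finset.range N, M.dL (e k) (M.dR (e k)
      (M.ad (ζ k) (ζ k) (j k (bet k s)) - D (j k (bet k s)))) -
        M.dL (f N) (M.dR (f N) (D (tl s N))) := by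
  refine ⟨∑ k ∈ Finset.range N, (M.dL (e k) (D (e k)) + M.dL (e k) (M.dR (e k) (ζ k))) +
    M.dL (f N) (D (f N)) - M.dR 1 (D 1), fun s => ?_⟩
  have lin : ∀ ξ, M.ad ξ ξ s = (M.dL s - M.dR s) ξ := fun _ => rfl
  have h1 : ∀ k, M.dL (e k) (M.dR (e k) (D s)) = M.dL (e k) (M.dR (e k) (D (j k (bet k s)))) :=
    fun k => by
      rw [← corner_mul h (idem_e k).1 (central (bet_e · k) s), mul_e]
      simp only [map_add, map_smul, corner_self h (idem_e k).1, smul_zero, zero_add]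
  have h2 : ∀ k, M.ad (M.dL (e k) (M.dR (e k) (ζ k))) (M.dL (e k) (M.dR (e k) (ζ k))) s =
      M.dL (e k) (M.dR (e k) (M.ad (ζ k) (ζ k) (j k (bet k s)))) := fun k => by
    rw [ad_corner (idem_e k).1 (central (bet_e · k) s), mul_e, ← adL_apply]
    simp only [map_add, map_smul, adL_apply, corner_ad (M := M) (idem_e k).1, smul_zero, zero_add]
  have h3 : M.dL (f N) (M.dR (f N) (D (tl s N))) = M.dL (f N) (M.dR (f N) (D s)) := by
    have := corner_mul h (idem_f N).1 (central (bet_f · N) 1)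
    rw [one_mul, corner_self h (idem_f N).1] at this
    rw [tl, corner_mul h (idem_f N).1 (central (bet_f · N) _)]
    simp only [map_sub, map_smul, ← this, smul_zero, sub_zero]
  have h4 : M.dL (f N) (D s) = M.dL 1 (D s) - ∑ k ∈ Finset.range N, M.dL (e k) (D s) := by
    simp only [f, map_sub, map_sum, sub_apply, sum_apply]
  have h5 := fun k => ad_left h (idem_e k).1 (central (bet_e · k) s)
  rw [lin, map_sub, map_add, map_sum]
  simp only [map_add]
  simp only [← lin, h2, h3, h5,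
    ad_left h (idem_f N).1 (central (bet_f · N) s), ad_right h (one_mul 1) (one_mul s) (mul_one s),
    h1, h4, map_sub, Finset.sum_add_distrib, Finset.sum_sub_distrib]
  abel

lemma der_io (h : M.IsDerivation D) (k : ℕ) :
    (M.comap (io k) (io_mul k)).IsDerivation (D ∘L io k) := fun a b =>
  (congrArg D (io_mul k a b)).trans (h _ _)

lemma tail_small (M : Bimodule (Amp A) X) (D : Amp A →L[ℂ] StrongDual ℂ X) (F : Finset (Amp A))
    {ε : ℝ} (hε : 0 < ε) : ∃ N, ∀ s ∈ F, ‖M.dL (f N) (M.dR (f N) (D (tl s N)))‖ < ε :=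
  Bimodule.fin_of_net (g := fun N s => ‖M.dL (f N) (M.dR (f N) (D (tl s N)))‖) (fun s =>
    squeeze_zero (fun _ => norm_nonneg _) (fun N => (M.corner_le _ (idem_f N).2 _).trans
      (mul_le_mul_of_nonneg_left (D.le_opNorm _) (by positivity))) (by
        simpa using ((tendsto_tl s).const_mul ‖D‖).const_mul (‖M.dL‖ * ‖M.dR‖))) F hε

theorem approx_up (hA : IsApproxAmenable.{u, v} A) : IsApproxAmenable.{u, w} (Amp A) := by
  classical
  intro X _ _ _ M D h
  refine Bimodule.approxInner_iff.2 fun F ε hε => ?_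
  obtain ⟨N, hN⟩ := tail_small M D F (half_pos hε)
  obtain ⟨δ, hδ, hδ'⟩ := exists_pos_mul_lt (half_pos hε) (N * (‖M.dL‖ * ‖M.dR‖))
  choose ζ hζ using fun k => Bimodule.approxInner_iff.1 (hA X _ _ (der_io h k))
    (F.image fun s => r k • bet k s) δ hδ
  obtain ⟨ξ, hξ⟩ := decomp h N ζ
  refine ⟨ξ, fun s hs => ?_⟩
  have h1 : ∀ k ∈ Finset.range N, ‖M.dL (e k) (M.dR (e k) (M.ad (ζ k) (ζ k) (j k (bet k s)) -
      D (j k (bet k s))))‖ ≤ ‖M.dL‖ * ‖M.dR‖ * δ := fun k _ => by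
    refine (M.corner_le _ (idem_e k).2 _).trans (mul_le_mul_of_nonneg_left ?_ (by positivity))
    rw [← io_r]
    exact (hζ k _ (Finset.mem_image_of_mem _ hs)).le
  have h2 := (norm_sum_le _ _).trans (Finset.sum_le_card_nsmul _ _ _ h1)
  rw [Finset.card_range, nsmul_eq_mul, ← mul_assoc] at h2
  rw [hξ]
  linarith [hN s hs, norm_sub_le (∑ k ∈ Finset.range N, M.dL (e k) (M.dR (e k)
    (M.ad (ζ k) (ζ k) (j k (bet k s)) - D (j k (bet k s))))) (M.dL (f N) (M.dR (f N) (D (tl s N))))]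

theorem bdd_up (hA : IsAmenable.{u} A) : IsBddApproxSemiAmenable.{u, v} (Amp A) := by
  intro X _ _ _ M D h
  choose ζ hζ using fun k => hA X _ _ (der_io h k)
  have h0 : ∀ k b, M.ad (ζ k) (ζ k) (j k b) - D (j k b) = 0 := fun k b => by
    rw [← io_r]
    exact sub_eq_zero.2 (hζ k _).symm
  obtain ⟨K, hK⟩ : ∃ K, K = ‖D‖ + ‖M.dL‖ * ‖M.dR‖ * (‖D‖ * 2) + 1 := ⟨_, rfl⟩
  obtain ⟨ι, _, _, _, p, hp⟩ := Bimodule.net_of_fin.{v}
    (P := {ξ // ∀ s, ‖M.ad ξ ξ s‖ ≤ K * ‖s‖}) (g := fun p s => ‖M.ad p.1 p.1 s - D s‖)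
    (fun _ _ => norm_nonneg _) fun F ε hε => by
      obtain ⟨N, hN⟩ := tail_small M D F hε
      obtain ⟨ξ, hξ⟩ := decomp h N ζ
      simp only [h0, map_zero, Finset.sum_const_zero, zero_sub] at hξ
      refine ⟨⟨ξ, fun s => ?_⟩, fun s hs => by simpa only [hξ, norm_neg] using hN s hs⟩
      have h1 := (M.corner_le _ (idem_f N).2 (D (tl s N))).trans (mul_le_mul_of_nonneg_left
        ((D.le_opNorm _).trans (mul_le_mul_of_nonneg_left (norm_tl s N) (norm_nonneg D)))
        (by positivity))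
      rw [eq_add_of_sub_eq (hξ s), hK]
      refine (norm_add_le _ _).trans ?_
      rw [norm_neg]
      nlinarith [D.le_opNorm s, norm_nonneg s]
  exact ⟨ι, _, ‹_›, ‹_›, fun i => (p i).1, fun i => (p i).1, hp, K, by rw [hK]; positivity,
    fun i => (p i).2⟩

end Amp

end Pool.Agent.P.MP_98688b_an
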