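import Mathlib
import Pool.Agent.P.MP_98688b_an.AmpUp

/-!
The universal modules of the blocks, and the passage from `Amp A` to `A`.
-/

namespace Pool.Agent.P.MP_98688b_an

open Filter Topology ContinuousLinearMap

set_option linter.unusedSectionVars false
set_option maxSynthPendingDepth 3

universe u v w

namespace Amp

variable {A : Type} [NonUnitalNormedRing A] [NormedSpace ℂ A] [IsScalarTower ℂ A A]
  [SMulCommClass ℂ A A]

section pull

variable {Z : Type u} [NormedAddCommGroup Z] [NormedSpace ℂ Z]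

/-- The action through the `n`-th block. -/
noncomputable def act (n : ℕ) (L : A →L[ℂ] Z →L[ℂ] Z) : Amp A →L[ℂ] Z →L[ℂ] Z :=
  (lam n : Amp A →L[ℂ] ℂ).smulRight (.id ℂ Z) + L ∘L bet n

lemma act_apply (n : ℕ) (L : A →L[ℂ] Z →L[ℂ] Z) (s : Amp A) (x : Z) :
    act n L s x = lam n s • x + L (bet n s) x := rfl

lemma act_e (n : ℕ) (L : A →L[ℂ] Z →L[ℂ] Z) (x : Z) : act n L (e n) x = x := by
  simp [act_apply, lam_e, bet_e]

lemma act_j (n : ℕ) (L : A →L[ℂ] Z →L[ℂ] Z) (a : A) (x : Z) : act n L (j n a) x = L a x := by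
  simp [act_apply, lam_j, bet_j]

lemma norm_act (n : ℕ) {L : A →L[ℂ] Z →L[ℂ] Z} {C : ℝ} (h : ‖L‖ ≤ C) : ‖act n L‖ ≤ 1 + C := by
  have hC := (norm_nonneg L).trans h
  refine opNorm_le_bound₂ _ (by positivity) fun s x => ?_
  have h1 : ‖lam n s‖ ≤ 1 * ‖s‖ := le_of_opNorm_le _ (norm_lam n) s
  have h2 : ‖bet n s‖ ≤ 1 * ‖s‖ := le_of_opNorm_le _ (norm_bet n) s
  rw [act_apply, add_mul, add_mul]
  refine (norm_add_le _ _).trans (add_le_add ?_ ((L.le_opNorm₂ _ _).trans ?_))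
  · rw [norm_smul]
    gcongr
  · gcongr
    linarith

/-- A module over the rescaled algebra as a module over `Amp A`. -/
noncomputable def pull (n : ℕ) (L R : A →L[ℂ] Z →L[ℂ] Z)
    (hl : ∀ a b x, r n • L (a * b) x = L a (L b x)) (hr : ∀ a b x, r n • R (a * b) x = R b (R a x))
    (hlr : ∀ a b x, L a (R b x) = R b (L a x)) : Bimodule (Amp A) Z where
  left := act n L
  right := act n R
  left_mul s t x := by
    simp only [act_apply, lam_mul, bet_mul, map_add, map_smul, add_apply, smul_apply, ← hl]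
    module
  right_mul s t x := by
    simp only [act_apply, lam_mul, bet_mul, map_add, map_smul, add_apply, smul_apply, ← hr]
    module
  left_right s t x := by
    simp only [act_apply, map_add, map_smul, hlr]
    module

lemma der_pull {n : ℕ} {L R : A →L[ℂ] Z →L[ℂ] Z} {hl hr hlr} {d : A →L[ℂ] StrongDual ℂ Z}
    (h : ∀ a b x, r n • d (a * b) x = d b (R a x) + d a (L b x)) :
    (pull n L R hl hr hlr).IsDerivation (d ∘L bet n) := fun s t => by
  ext x
  show d (bet n (s * t)) x = d (bet n t) (act n R s x) + d (bet n s) (act n L t x)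
  simp only [act_apply, bet_mul, map_add, map_smul, add_apply, smul_apply, h]
  abel

lemma ad_pull {n : ℕ} {L R : A →L[ℂ] Z →L[ℂ] Z} {hl hr hlr} (ξ η : StrongDual ℂ Z) (s : Amp A) :
    (pull n L R hl hr hlr).ad ξ ξ s = (pull n L R hl hr hlr).ad ξ η s -
      (pull n L R hl hr hlr).ad ξ η (e n) ∘L act n L s := by
  ext x
  show ξ (act n R s x) - ξ (act n L s x) = ξ (act n R s x) - η (act n L s x) -
    (ξ (act n R (e n) (act n L s x)) - η (act n L (e n) (act n L s x)))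
  rw [act_e, act_e]
  abel

end pull

theorem semi_down (h : IsApproxSemiAmenable.{u, v} (Amp A)) : IsApproxAmenable.{u, v} A := by
  intro X _ _ _ N d hd
  obtain ⟨ι, _, _, _, ξ, η, H⟩ := h X (pull 0 N.left N.right (by simp [r, N.left_mul])
    (by simp [r, N.right_mul]) N.left_right) _ (der_pull (d := d) fun a b x => by
      simpa [r, Bimodule.dualLeft, Bimodule.dualRight] using DFunLike.congr_fun (hd a b) x)
  refine ⟨ι, _, ‹_›, ‹_›, ξ, fun a => squeeze_zero (fun _ => norm_nonneg _) (fun i => ?_) (by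
    simpa only [zero_mul, add_zero] using (H (j 0 a)).add
      ((H (e 0)).mul_const ‖act 0 N.left (j 0 a)‖))⟩
  have h1 : N.ad (ξ i) (ξ i) a = (pull 0 N.left N.right (by simp [r, N.left_mul])
      (by simp [r, N.right_mul]) N.left_right).ad (ξ i) (ξ i) (j 0 a) := by
    ext x
    show _ = ξ i (act 0 _ _ x) - ξ i (act 0 _ _ x)
    rw [act_j, act_j, N.ad_apply]
  rw [h1, ad_pull _ (η i), sub_right_comm]
  simp only [comp_apply, bet_j, bet_e, if_true, map_zero, sub_zero]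
  exact (norm_sub_le _ _).trans (by gcongr; exact opNorm_comp_le _ _)

/-! ### The universal module -/

variable (A) in
/-- The predual side of the universal module. -/
abbrev U : Type := (A →L[ℂ] A →L[ℂ] ℂ) × (A →L[ℂ] ℂ)

instance : CompleteSpace (lp (fun _ : ULift.{u} ℕ => U A) 1) :=
  @lp.completeSpace _ _ _ _ _ fun _ =>
    inferInstanceAs (CompleteSpace ((A →L[ℂ] A →L[ℂ] ℂ) × (A →L[ℂ] ℂ)))

lemma U.le (z : U A) (x y : A) : ‖z.1 x y‖ ≤ ‖z‖ * ‖x‖ * ‖y‖ :=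
  (z.1.le_opNorm₂ x y).trans (by gcongr; exact norm_fst_le z)

lemma U.le' (z : U A) (x : A) : ‖z.2 x‖ ≤ ‖z‖ * ‖x‖ :=
  (z.2.le_opNorm x).trans (by gcongr; exact norm_snd_le z)

/-- The left action. -/
noncomputable def uL0 (c : ℂ) (b : A) (z : U A) : U A :=
  (c • z.1.bilinearComp (.id ℂ A) ((ContinuousLinearMap.mul ℂ A).flip b), z.1.flip b)

/-- The right action. -/
noncomputable def uR0 (c : ℂ) (b : A) (z : U A) : U A :=
  (c • (z.1 ∘L .mul ℂ A b - compL ℂ A A ℂ (z.1 b) ∘L .mul ℂ A), c • z.2 ∘L .mul ℂ A b - z.1 b)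

lemma uL0_fst (c : ℂ) (b : A) (z : U A) : ‖(uL0 c b z).1‖ ≤ ‖c‖ * ‖b‖ * ‖z‖ :=
  opNorm_le_bound₂ _ (by positivity) fun x y => by
    show ‖c • z.1 x (y * b)‖ ≤ _
    rw [norm_smul]
    calc _ ≤ ‖c‖ * (‖z‖ * ‖x‖ * (‖y‖ * ‖b‖)) := by
          gcongr
          exact (z.le _ _).trans (by gcongr; exact norm_mul_le _ _)
      _ = _ := by ring

lemma uR0_fst (c : ℂ) (b : A) (z : U A) : ‖(uR0 c b z).1‖ ≤ 2 * ‖c‖ * ‖b‖ * ‖z‖ :=
  opNorm_le_bound₂ _ (by positivity) fun x y => by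
    show ‖c • (z.1 (b * x) y - z.1 b (x * y))‖ ≤ _
    rw [norm_smul]
    calc _ ≤ ‖c‖ * (‖z‖ * (‖b‖ * ‖x‖) * ‖y‖ + ‖z‖ * ‖b‖ * (‖x‖ * ‖y‖)) := by
          gcongr
          exact (norm_sub_le _ _).trans (add_le_add
            ((z.le _ _).trans (by gcongr; exact norm_mul_le _ _))
            ((z.le _ _).trans (by gcongr; exact norm_mul_le _ _)))
      _ = _ := by ring

lemma uL0_le (c : ℂ) (b : A) (z : U A) : ‖uL0 c b z‖ ≤ (2 * ‖c‖ + 1) * ‖b‖ * ‖z‖ := by
  have := norm_nonneg c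
  refine max_le ((uL0_fst c b z).trans (by gcongr; linarith))
    (opNorm_le_bound _ (by positivity) fun x => (z.le x b).trans ?_)
  calc _ = 1 * ‖b‖ * ‖z‖ * ‖x‖ := by ring
    _ ≤ _ := by gcongr; linarith

lemma uR0_le (c : ℂ) (b : A) (z : U A) : ‖uR0 c b z‖ ≤ (2 * ‖c‖ + 1) * ‖b‖ * ‖z‖ := by
  have := norm_nonneg c
  refine max_le ((uR0_fst c b z).trans (by gcongr; linarith))
    (opNorm_le_bound _ (by positivity) fun x => ?_)
  show ‖c • z.2 (b * x) - z.1 b x‖ ≤ _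
  calc _ ≤ ‖c‖ * (‖z‖ * (‖b‖ * ‖x‖)) + ‖z‖ * ‖b‖ * ‖x‖ := by
        refine (norm_sub_le _ _).trans (add_le_add ?_ (z.le _ _))
        rw [norm_smul]
        gcongr
        exact (z.le' _).trans (by gcongr; exact norm_mul_le _ _)
    _ = (‖c‖ + 1) * ‖b‖ * ‖z‖ * ‖x‖ := by ring
    _ ≤ _ := by gcongr; linarith

lemma U.ext {z z' : U A} (h1 : ∀ x y, z.1 x y = z'.1 x y) (h2 : ∀ x, z.2 x = z'.2 x) : z = z' :=
  Prod.ext (ContinuousLinearMap.ext fun x => ContinuousLinearMap.ext (h1 x))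
    (ContinuousLinearMap.ext h2)

/-- The left action as a continuous bilinear map. -/
noncomputable def uL (c : ℂ) : A →L[ℂ] U A →L[ℂ] U A :=
  LinearMap.mkContinuous₂ (LinearMap.mk₂ ℂ (uL0 c)
    (fun a b z => U.ext (by simp [uL0, mul_add]) (by simp [uL0]))
    (fun t a z => U.ext (by simp [uL0, mul_left_comm]) (by simp [uL0]))
    (fun a z z' => U.ext (by simp [uL0, mul_add]) (by simp [uL0]))
    (fun t a z => U.ext (by simp [uL0, mul_left_comm]) (by simp [uL0]))) _ (uL0_le c)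

/-- The right action as a continuous bilinear map. -/
noncomputable def uR (c : ℂ) : A →L[ℂ] U A →L[ℂ] U A :=
  LinearMap.mkContinuous₂ (LinearMap.mk₂ ℂ (uR0 c)
    (fun a b z => U.ext (fun x y => by simp [uR0]; ring) fun x => by simp [uR0]; ring)
    (fun t a z => U.ext (fun x y => by simp [uR0]; ring) fun x => by simp [uR0]; ring)
    (fun a z z' => U.ext (fun x y => by simp [uR0]; ring) fun x => by simp [uR0]; ring)
    (fun t a z => U.ext (fun x y => by simp [uR0]; ring) fun x => by simp [uR0]; ring)) _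
    (uR0_le c)

lemma uL1 (c : ℂ) (b : A) (z : U A) (x y : A) : (uL c b z).1 x y = c * z.1 x (y * b) := rfl

lemma uL2 (c : ℂ) (b : A) (z : U A) (x : A) : (uL c b z).2 x = z.1 x b := rfl

lemma uR1 (c : ℂ) (b : A) (z : U A) (x y : A) :
    (uR c b z).1 x y = c * (z.1 (b * x) y - z.1 b (x * y)) := rfl

lemma uR2 (c : ℂ) (b : A) (z : U A) (x : A) : (uR c b z).2 x = c * z.2 (b * x) - z.1 b x := rfl

lemma norm_r_le (n : ℕ) : 2 * ‖r n‖ + 1 ≤ 3 := by
  have : ‖r n‖ ≤ 1 := by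
    rw [norm_r, div_le_one (by positivity)]
    linarith [n.cast_nonneg (α := ℝ)]
  linarith

lemma norm_uL (n : ℕ) : ‖(uL (r n) : A →L[ℂ] _)‖ ≤ 3 :=
  (LinearMap.mkContinuous₂_norm_le _ (by positivity) _).trans (norm_r_le n)

lemma norm_uR (n : ℕ) : ‖(uR (r n) : A →L[ℂ] _)‖ ≤ 3 :=
  (LinearMap.mkContinuous₂_norm_le _ (by positivity) _).trans (norm_r_le n)

variable (A) in
/-- The universal module of the `n`-th block. -/
noncomputable def uM (n : ℕ) : Bimodule (Amp A) (U A) :=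
  pull n (uL (r n)) (uR (r n))
    (fun a b z => U.ext (fun x y => by simp [uL1, mul_assoc]) fun x => by simp [uL1, uL2])
    (fun a b z => U.ext (fun x y => by simp [uR1, mul_assoc, mul_sub])
      fun x => by simp [uR1, uR2, mul_assoc]; ring)
    fun a b z => U.ext (fun x y => by simp [uL1, uR1, mul_assoc, mul_sub])
      fun x => by simp [uL1, uL2, uR1, uR2]; ring

variable (A) in
/-- The universal derivation of the `n`-th block. -/
noncomputable def uD (n : ℕ) : Amp A →L[ℂ] StrongDual ℂ (U A) := (snd ℂ _ _).flip ∘L bet n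

lemma uD_j (n : ℕ) (a : A) (z : U A) : uD A n (j n a) z = z.2 a := by simp [uD, bet_j]

lemma uD_der (n : ℕ) : (uM A n).IsDerivation (uD A n) :=
  der_pull fun a b z => by simp [uL2, uR2]

lemma norm_uD (n : ℕ) : ‖uD A n‖ ≤ 1 :=
  opNorm_le_bound₂ _ zero_le_one fun s z => (z.le' (bet n s)).trans (by
    rw [mul_comm]
    gcongr
    exact le_of_opNorm_le _ (norm_bet n) s)

lemma uM_sum : ∃ (N : Bimodule (Amp A) (lp (fun _ : ULift.{u} ℕ => U A) 1))
    (E : Amp A →L[ℂ] StrongDual ℂ (lp (fun _ : ULift.{u} ℕ => U A) 1))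
    (ρ : ℕ → StrongDual ℂ (lp (fun _ : ULift.{u} ℕ => U A) 1) →+ StrongDual ℂ (U A)),
      N.IsDerivation E ∧ ∀ n, (∀ f, ‖ρ n f‖ ≤ ‖f‖) ∧ (∀ a, ρ n (E a) = uD A n a) ∧
        ∀ ξ η a, ρ n (N.ad ξ η a) = (uM A n).ad (ρ n ξ) (ρ n η) a := by
  obtain ⟨N, E, ρ, h1, h2⟩ := exists_sum (I := ULift.{u} ℕ) (fun i => uM A i.down)
    (fun i => uD A i.down) (C := 1 + 3) (fun i => norm_act _ (norm_uL _))
    (fun i => norm_act _ (norm_uR _)) (fun i => (norm_uD _).trans (by norm_num))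
    fun i => uD_der _
  exact ⟨N, E, fun n => ρ ⟨n⟩, h1, fun n => h2 ⟨n⟩⟩

lemma uM_ad (n : ℕ) (ξ η : StrongDual ℂ (U A)) (a : A) (z : U A) :
    (uM A n).ad ξ η (j n a) z = ξ (uR (r n) a z) - η (uL (r n) a z) := by
  show ξ (act n _ _ z) - η (act n _ _ z) = _
  rw [act_j, act_j]

lemma exists_unit [Nontrivial A] : ∃ (b : A) (ψ : A →L[ℂ] ℂ), ‖b‖ = 1 ∧ ‖ψ‖ = 1 ∧ ψ b = 1 := by
  obtain ⟨b, hb⟩ := exists_norm_eq A zero_le_one
  obtain ⟨ψ, h1, h2⟩ := exists_dual_vector ℂ b (by rw [hb]; exact one_ne_zero)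
  exact ⟨b, ψ, hb, h1, by simpa [hb] using h2⟩

lemma small_r (C : ℝ) {ε : ℝ} (hε : 0 < ε) : ∃ n, ‖r n‖ * C < ε := by
  simp only [norm_r]
  have := (tendsto_one_div_add_atTop_nhds_zero_nat (𝕜 := ℝ)).mul_const C
  rw [zero_mul] at this
  exact (this.eventually (gt_mem_nhds hε)).exists

theorem not_amenable [Nontrivial A] : ¬ IsAmenable.{u} (Amp A) := fun h => by
  obtain ⟨N, E, ρ, h1, h2⟩ := uM_sum.{u} (A := A)
  obtain ⟨ξ, hξ⟩ := h _ N E h1
  obtain ⟨b, ψ, hb, hψ, e1⟩ := exists_unit (A := A)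
  obtain ⟨n, hn⟩ := small_r ‖ξ‖ one_pos
  have h3 := DFunLike.congr_fun (((h2 n).2.1 (j n b)).symm.trans
    ((congrArg _ (hξ _)).trans ((h2 n).2.2 ξ ξ _))) (0, ψ)
  have h4 : uL (r n) b ((0, ψ) : U A) = 0 := U.ext (by simp [uL1]) (by simp [uL2])
  have h5 : uR (r n) b ((0, ψ) : U A) = r n • (0, ψ ∘L .mul ℂ A b) :=
    U.ext (by simp [uR1]) (by simp [uR2])
  have h6 : ‖((0, ψ ∘L .mul ℂ A b) : U A)‖ ≤ 1 := max_le (by simp) ((opNorm_comp_le _ _).trans (by
    rw [hψ, one_mul, ← hb]; exact opNorm_mul_apply_le ℂ A b))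
  rw [uD_j, uM_ad, h4, h5, map_zero, sub_zero, map_smul, e1] at h3
  have h7 := congrArg norm h3
  rw [norm_one, norm_smul] at h7
  have h8 := ((ρ n ξ).le_opNorm _).trans (mul_le_mul ((h2 n).1 ξ) h6 (norm_nonneg _)
    (norm_nonneg _))
  nlinarith [norm_nonneg (r n)]

end Amp

end Pool.Agent.P.MP_98688b_an
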