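import Mathlib
import Pool.Agent.P.MP_98688b_an.AmpDown

/-!
Bounded approximate semi-amenability of `Amp A` forces amenability of `A`.
-/

namespace Pool.Agent.P.MP_98688b_an

open Filter Topology ContinuousLinearMap

set_option linter.unusedSectionVars false
set_option maxSynthPendingDepth 3

universe u v w

namespace Amp

variable {A : Type} [NonUnitalNormedRing A] [NormedSpace ℂ A] [IsScalarTower ℂ A A]
  [SMulCommClass ℂ A A]

lemma j_mul (n : ℕ) (a b : A) : j n a * j n b = j n (r n • (a * b)) :=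
  ext' (fun k => by simp [lam_mul, lam_j]) fun k => by
    by_cases h : k = n <;> simp [bet_mul, lam_j, bet_j, h]

lemma small_snd {n : ℕ} {E : Amp A →L[ℂ] StrongDual ℂ (U A)} (hE : (uM A n).IsDerivation E)
    {K : ℝ} (hK : 0 ≤ K) (h1 : ∀ a, ‖E (j n a)‖ ≤ K * ‖a‖) {b : A} {ψ : A →L[ℂ] ℂ} (hb : ‖b‖ = 1)
    (hψ : ‖ψ‖ = 1) (e1 : ψ b = 1) (h2 : ‖E (j n b)‖ ≤ 1 / 12) (a : A) (φ : A →L[ℂ] ℂ) :
    ‖E (j n a) (0, φ)‖ ≤ ‖a‖ * ((2 * ‖r n‖ * K + 1 / 4) * ‖φ‖) := by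
  obtain ⟨z, hz⟩ : ∃ z : U A, z = (φ.smulRight ψ, 0) := ⟨_, rfl⟩
  have nz : ‖z‖ ≤ ‖φ‖ := by
    rw [hz]
    exact max_le (by simp [hψ]) (by simp)
  have e2 : uL (r n) b z = ((uL (r n) b z).1, 0) + (0, φ) :=
    U.ext (by simp) (by simp [uL2, hz, e1])
  have e3 : E (j n a * j n b) z = E (j n b) (act n (uR (r n)) (j n a) z) +
    E (j n a) (act n (uL (r n)) (j n b) z) := DFunLike.congr_fun (hE _ _) z
  rw [act_j, act_j, e2, map_add, j_mul, ← add_assoc, ← sub_eq_iff_eq_add'] at e3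
  have b1 : ‖E (j n (r n • (a * b))) z‖ ≤ K * (‖r n‖ * (‖a‖ * 1)) * ‖φ‖ := by
    refine (le_opNorm _ _).trans (mul_le_mul ((h1 _).trans ?_) nz (norm_nonneg _) (by positivity))
    rw [norm_smul, ← hb]
    gcongr
    exact norm_mul_le a b
  have b2 : ‖E (j n b) (uR (r n) a z)‖ ≤ 1 / 12 * (3 * ‖a‖ * ‖φ‖) :=
    (le_opNorm _ _).trans (mul_le_mul h2 ((le_opNorm₂ _ _ _).trans (by
      gcongr; exact norm_uR n)) (norm_nonneg _) (by positivity))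
  have b3 : ‖E (j n a) ((uL (r n) b z).1, 0)‖ ≤ K * ‖a‖ * (‖r n‖ * 1 * ‖φ‖) := by
    refine (le_opNorm _ _).trans (mul_le_mul (h1 a) (max_le ((uL0_fst _ _ _).trans ?_) ?_)
      (norm_nonneg _) (by positivity))
    · rw [hb]
      gcongr
    · rw [norm_zero]
      positivity
  rw [← e3]
  refine (norm_sub_le_of_le b1 (norm_add_le_of_le b2 b3)).trans_eq ?_
  ring

lemma pull_est {Z : Type} [NormedAddCommGroup Z] [NormedSpace ℂ Z] {n : ℕ}
    {L R : A →L[ℂ] Z →L[ℂ] Z} {hl hr hlr} (ξ η : StrongDual ℂ Z)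
    {D : Amp A →L[ℂ] StrongDual ℂ Z} (e0 : D (e n) = 0) {C ε : ℝ} (hL : ‖L‖ ≤ C)
    (h : ‖(pull n L R hl hr hlr).ad ξ η (e n) - D (e n)‖ ≤ ε) (s : Amp A) :
    ‖(D - (pull n L R hl hr hlr).adL ξ) s‖ ≤
      ‖(pull n L R hl hr hlr).ad ξ η s - D s‖ + ε * ((1 + C) * ‖s‖) := by
  rw [e0, sub_zero] at h
  rw [sub_apply, norm_sub_rev, Bimodule.adL_apply, ad_pull ξ η, sub_right_comm]
  exact norm_sub_le_of_le le_rfl ((opNorm_comp_le _ _).trans (mul_le_mul h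
    (le_of_opNorm_le _ (norm_act n hL) s) (norm_nonneg _) ((norm_nonneg _).trans h)))

lemma uM_est (n : ℕ) (ξ η : StrongDual ℂ (U A)) {ε : ℝ}
    (h : ‖(uM A n).ad ξ η (e n) - uD A n (e n)‖ ≤ ε) (s : Amp A) :
    ‖(uD A n - (uM A n).adL ξ) s‖ ≤ ‖(uM A n).ad ξ η s - uD A n s‖ + ε * ((1 + 3) * ‖s‖) :=
  pull_est ξ η (by simp [uD, bet_e]) (norm_uL n) h s

lemma key0 (h : IsBddApproxSemiAmenable.{u, v} (Amp A)) (b : A) : ∃ K, 0 < K ∧ ∀ n, ∃ ξ η,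
    ‖(uM A n).ad ξ η (j n b) - uD A n (j n b)‖ ≤ 1 / 60 ∧
    ‖(uM A n).ad ξ η (e n) - uD A n (e n)‖ ≤ 1 / 60 ∧ ∀ s, ‖(uM A n).ad ξ η s‖ ≤ K * ‖s‖ := by
  classical
  obtain ⟨N, E, ρ, h1, h2⟩ := uM_sum.{u} (A := A)
  obtain ⟨ι, _, _, _, ξ, η, H, K, hK, HK⟩ := h _ N E h1
  refine ⟨K, hK, fun n => ?_⟩
  obtain ⟨i, hi⟩ := Bimodule.fin_of_net H {j n b, e n} (ε := 1 / 60) (by norm_num)
  obtain ⟨r1, r2, r3⟩ := h2 n
  have g1 : ∀ s ∈ ({j n b, e n} : Finset (Amp A)),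
      ‖(uM A n).ad (ρ n (ξ i)) (ρ n (η i)) s - uD A n s‖ ≤ 1 / 60 := fun s hs => by
    rw [← r2, ← r3, ← map_sub]
    exact (r1 _).trans (hi s hs).le
  refine ⟨_, _, g1 _ (by simp), g1 _ (by simp), fun s => ?_⟩
  rw [← r3]
  exact (r1 _).trans (HK i s)

lemma key [Nontrivial A] (h : IsBddApproxSemiAmenable.{u, v} (Amp A)) : ∃ K, 0 ≤ K ∧ ∀ n, ∃ ξ,
    ∀ (a : A) (z : U A), ‖(uD A n - (uM A n).adL ξ) (j n a) z‖ ≤
      ‖a‖ * (K * ‖z.1‖ + (2 * ‖r n‖ * K + 1 / 4) * ‖z.2‖) := by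
  obtain ⟨b, ψ, hb, hψ, e1⟩ := exists_unit (A := A)
  obtain ⟨K, hK, H⟩ := key0 h b
  refine ⟨K + 2, by positivity, fun n => ?_⟩
  obtain ⟨ξ, η, g0, g1, g2⟩ := H n
  refine ⟨ξ, fun a z => ?_⟩
  have g3 := uM_est n ξ η g1
  have hE := (uD_der (A := A) n).sub_adL ξ
  generalize uD A n - (uM A n).adL ξ = E at g3 hE ⊢
  have g4 : ∀ a, ‖E (j n a)‖ ≤ (K + 2) * ‖a‖ := fun a => by
    have := (g3 (j n a)).trans (add_le_add_left (norm_sub_le_of_le (g2 _)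
      (le_of_opNorm_le _ (norm_uD n) _)) _)
    nlinarith [norm_j n a, norm_nonneg a]
  have g5 := small_snd hE (by positivity) g4 hb hψ e1 (by
    linarith [(g3 (j n b)).trans (add_le_add_left g0 _), norm_j n b]) a z.2
  have g6 := (le_opNorm _ ((z.1, 0) : U A)).trans (mul_le_mul (g4 a)
    (max_le le_rfl (by simp) : _ ≤ ‖z.1‖) (norm_nonneg _) (by positivity))
  have e2 : E (j n a) z = E (j n a) (z.1, 0) + E (j n a) (0, z.2) := by
    rw [← map_add, Prod.fst_add_snd]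
  rw [e2]
  exact (norm_add_le_of_le g6 g5).trans_eq (by ring)

variable {Y : Type w} [NormedAddCommGroup Y] [NormedSpace ℂ Y]

/-- The comparison map into the universal module. -/
noncomputable def th0 (c : ℂ) (N : Bimodule A Y) (d : A →L[ℂ] StrongDual ℂ Y) (y : Y) : U A :=
  (c • bilinearComp d (.id ℂ A) (N.left.flip y), d.flip y)

lemma th0_fst (c : ℂ) (N : Bimodule A Y) (d : A →L[ℂ] StrongDual ℂ Y) (y : Y) :
    ‖(th0 c N d y).1‖ ≤ ‖c‖ * ‖N.left‖ * ‖d‖ * ‖y‖ :=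
  opNorm_le_bound₂ _ (by positivity) fun a b => by
    show ‖c • d a (N.left b y)‖ ≤ _
    rw [norm_smul]
    calc _ ≤ ‖c‖ * (‖d‖ * ‖a‖ * (‖N.left‖ * ‖b‖ * ‖y‖)) := by
          gcongr
          exact (d.le_opNorm₂ _ _).trans (by gcongr; exact le_opNorm₂ _ _ _)
      _ = _ := by ring

lemma th0_snd (c : ℂ) (N : Bimodule A Y) (d : A →L[ℂ] StrongDual ℂ Y) (y : Y) :
    ‖(th0 c N d y).2‖ ≤ ‖d‖ * ‖y‖ :=
  opNorm_le_bound _ (by positivity) fun a => (d.le_opNorm₂ a y).trans_eq (by ring)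

lemma th0_le (c : ℂ) (N : Bimodule A Y) (d : A →L[ℂ] StrongDual ℂ Y) (y : Y) :
    ‖th0 c N d y‖ ≤ (‖c‖ * ‖N.left‖ + 1) * ‖d‖ * ‖y‖ :=
  max_le ((th0_fst c N d y).trans (by gcongr; linarith)) ((th0_snd c N d y).trans (by
    rw [mul_assoc]
    exact le_mul_of_one_le_left (by positivity) (le_add_of_nonneg_left (by positivity))))

/-- The comparison map as a continuous linear map. -/
noncomputable def th (c : ℂ) (N : Bimodule A Y) (d : A →L[ℂ] StrongDual ℂ Y) : Y →L[ℂ] U A :=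
  LinearMap.mkContinuous ⟨⟨th0 c N d, fun y y' => U.ext (by simp [th0, mul_add]) (by simp [th0])⟩,
    fun t y => U.ext (by simp [th0, mul_left_comm]) (by simp [th0])⟩ _ (th0_le c N d)

lemma th1 (c : ℂ) (N : Bimodule A Y) (d : A →L[ℂ] StrongDual ℂ Y) (y : Y) (a b : A) :
    (th c N d y).1 a b = c * d a (N.left b y) := rfl

lemma th2 (c : ℂ) (N : Bimodule A Y) (d : A →L[ℂ] StrongDual ℂ Y) (y : Y) (a : A) :
    (th c N d y).2 a = d a y := rfl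

theorem bdd_down (h : IsBddApproxSemiAmenable.{u, v} (Amp A)) : IsAmenable.{w} A := by
  intro Y _ _ _ N D hD
  rcases subsingleton_or_nontrivial A with hA | hA
  · exact ⟨0, fun a => by simp [Subsingleton.elim a 0, Bimodule.ad_eq]⟩
  obtain ⟨K, hK, H⟩ := key h
  obtain ⟨n, hn⟩ := small_r (K * (‖N.left‖ + 2)) (ε := 1 / 4) (by norm_num)
  obtain ⟨ξ, hξ⟩ := H n
  refine Bimodule.inner_of_half (c := ‖r n‖ * (‖ξ‖ * (‖r n‖ * ‖N.left‖ + 1))) (fun d hd => ?_) hD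
  have e0 : ∀ a b y, d (a * b) y = d b (N.right a y) + d a (N.left b y) := fun a b y =>
    DFunLike.congr_fun (hd a b) y
  have e1 : ∀ a y, r n • th (r n) N d (N.right a y) = uR (r n) a (th (r n) N d y) := fun a y =>
    U.ext (fun x b => by simp [uR1, th1, e0, N.left_mul, N.left_right, mul_add])
      fun x => by simp [uR2, th1, th2, e0, mul_add]
  have e2 : ∀ a y, r n • th (r n) N d (N.left a y) = uL (r n) a (th (r n) N d y) := fun a y =>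
    U.ext (fun x b => by simp [uL1, th1, N.left_mul]) fun x => by simp [uL2, th1, th2]
  refine ⟨r n • ξ ∘L th (r n) N d, ?_, opNorm_le_bound₂ _ (by positivity) fun a y => ?_⟩
  · rw [norm_smul, mul_assoc, mul_assoc]
    gcongr
    refine (opNorm_comp_le _ _).trans ?_
    gcongr
    exact LinearMap.mkContinuous_norm_le _ (by positivity) _
  · have e3 : (d - N.adL (r n • ξ ∘L th (r n) N d)) a y =
        (uD A n - (uM A n).adL ξ) (j n a) (th (r n) N d y) := by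
      simp only [sub_apply, Bimodule.adL_apply, uD_j, uM_ad, th2, N.ad_apply, smul_apply,
        comp_apply, ← e1, ← e2, map_smul]
    rw [e3]
    calc _ ≤ ‖a‖ * (K * (‖r n‖ * ‖N.left‖ * ‖d‖ * ‖y‖) +
          (2 * ‖r n‖ * K + 1 / 4) * (‖d‖ * ‖y‖)) := by
          refine (hξ _ _).trans ?_
          gcongr
          exacts [th0_fst _ N d y, th0_snd _ N d y]
      _ = (‖r n‖ * (K * (‖N.left‖ + 2)) + 1 / 4) * (‖d‖ * ‖a‖ * ‖y‖) := by ring
      _ ≤ (1 / 4 + 1 / 4) * (‖d‖ * ‖a‖ * ‖y‖) := by gcongr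
      _ = _ := by ring

end Amp

end Pool.Agent.P.MP_98688b_an
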