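import Mathlib
import Pool.Agent.P.MP_98688b_an.AmpBdd

/-!
The transfer theorem and the commutative unital example.
-/

namespace Pool.Agent.P.MP_98688b_an

open Filter Topology TopologicalSpace

set_option linter.unusedSectionVars false
set_option maxSynthPendingDepth 3

universe u v w

lemma IsAmenable.approx {A : Type} [NonUnitalNormedRing A] [NormedSpace ℂ A]
    (h : IsAmenable.{u} A) : IsApproxAmenable.{u, v} A := fun X _ _ _ M D hD => by
  obtain ⟨ξ, hξ⟩ := h X M D hD
  exact Bimodule.approxInner_iff.2 fun F ε hε => ⟨ξ, fun a _ => by simpa [hξ] using hε⟩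

lemma IsApproxAmenable.semi {A : Type} [NonUnitalNormedRing A] [NormedSpace ℂ A]
    (h : IsApproxAmenable.{u, v} A) : IsApproxSemiAmenable.{u, v} A := fun X _ _ _ M D hD =>
  (h X M D hD).semi

lemma amenable_complex : IsAmenable.{u} ℂ := fun X _ _ _ M D h => by
  refine ⟨M.dL 1 (D 1) - M.dR 1 (D 1), fun s => ?_⟩
  have lin : ∀ ξ, M.ad ξ ξ s = (M.dL s - M.dR s) ξ := fun _ => rfl
  have h0 : D s = s • D 1 := by rw [← map_smul, smul_eq_mul, mul_one]
  rw [lin, map_sub, ← lin, ← lin, Bimodule.ad_left h (one_mul 1) (mul_comm 1 s),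
    Bimodule.ad_right h (one_mul 1) (one_mul s) (mul_one s), h0]
  simp only [map_smul, Bimodule.corner_self h (one_mul 1), smul_zero]
  abel

namespace Amp

variable {A : Type} [NonUnitalNormedRing A] [NormedSpace ℂ A] [IsScalarTower ℂ A A]
  [SMulCommClass ℂ A A]

theorem rescaled :
    IsApproxSemiAmenable.{u, v} (Amp A) ∧ ¬ IsBddApproxSemiAmenable.{u, v} (Amp A) ↔
      IsApproxAmenable.{u, v} A ∧ ¬ IsAmenable.{u} A :=
  and_congr ⟨semi_down, fun h => (approx_up h).semi⟩ (not_congr ⟨bdd_down, bdd_up⟩)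

instance : IsScalarTower ℂ (Amp A) (Amp A) := ⟨fun c x y => Algebra.smul_mul_assoc c x y⟩

instance : SMulCommClass ℂ (Amp A) (Amp A) := ⟨fun c x y => (Algebra.mul_smul_comm c x y).symm⟩

lemma comm (h : ∀ a b : A, a * b = b * a) (s t : Amp A) : s * t = t * s :=
  ext' (fun n => mul_comm (lam n s) (lam n t)) fun n => by
    rw [bet_mul, bet_mul, h, add_comm (lam n s • bet n t)]

lemma norm_one_eq : ‖(1 : Amp A)‖ = 1 :=
  le_antisymm norm_one_le
    ((NormOneClass.norm_one (α := ℂ)).ge.trans (sc_le (1 : Amp A) OnePoint.infty))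

lemma separable [SeparableSpace A] : SeparableSpace (Amp A) := by
  have h : IsSeparable ({1} ∪ Set.range e ∪ ⋃ k, Set.range (j k) : Set (Amp A)) :=
    (((Set.countable_singleton _).union (Set.countable_range _)).isSeparable).union
      (isSeparable_iUnion.2 fun k => isSeparable_range (j k).continuous)
  refine isSeparable_univ_iff.1 ((h.span (R := ℂ)).closure.mono fun s _ => ?_)
  refine mem_closure_of_tendsto (f := fun N => s - tl s N) (b := atTop) (by
    simpa using (tendsto_zero_iff_norm_tendsto_zero.2 (tendsto_tl s)).const_sub s)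
    (.of_forall fun N => ?_)
  rw [tl, f, mul_sub, mul_one, Finset.mul_sum, ← sub_add, sub_sub_cancel]
  simp only [mul_e]
  refine add_mem (Submodule.smul_mem _ _ (Submodule.subset_span (by simp)))
    (sum_mem fun k _ => add_mem (Submodule.smul_mem _ _ (Submodule.subset_span (by simp)))
      (Submodule.subset_span (.inr (Set.mem_iUnion.2 ⟨k, _, rfl⟩))))

/-- The characters of `Amp A`. -/
noncomputable def ch (n : ℕ) (χ : A →ₙₐ[ℂ] ℂ) : Amp A →ₐ[ℂ] ℂ :=
  AlgHom.ofLinearMap ⟨⟨fun s => lam n s + r n * χ (bet n s), fun s t => by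
      simp only [map_add]; ring⟩, fun c s => by
      simp only [map_smul, smul_eq_mul, RingHom.id_apply]; ring⟩
    (by simp [lam_one, bet_one]) fun s t => by
      simp only [LinearMap.coe_mk, AddHom.coe_mk, lam_mul, bet_mul, map_add, map_smul, map_mul,
        smul_eq_mul]
      ring

lemma semisimple (h : ∀ a : A, (∀ χ : A →ₙₐ[ℂ] ℂ, χ a = 0) → a = 0) (s : Amp A)
    (hs : ∀ χ : Amp A →ₐ[ℂ] ℂ, χ s = 0) : s = 0 := by
  have h1 : ∀ (n : ℕ) (χ : A →ₙₐ[ℂ] ℂ), lam n s + r n * χ (bet n s) = 0 := fun n χ => hs (ch n χ)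
  have h2 : ∀ n : ℕ, lam n s = 0 := fun n => by simpa using h1 n 0
  exact ext' h2 fun n => h _ fun χ => by simpa [h2, Nat.cast_add_one_ne_zero] using h1 n χ

end Amp

theorem comm_unital :
    ∃ (A : Type) (_ : NormedCommRing A) (_ : NormedAlgebra ℂ A) (_ : CompleteSpace A),
      ‖(1 : A)‖ = 1 ∧ SeparableSpace A ∧ (∀ a : A, (∀ χ : A →ₐ[ℂ] ℂ, χ a = 0) → a = 0) ∧
        IsApproxAmenable.{u, v} A ∧ IsApproxSemiAmenable.{u, v} A ∧
          ¬ IsBddApproxSemiAmenable.{u, v} A := by
  have h1 : IsApproxAmenable.{u, v} (Amp (Amp ℂ)) :=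
    Amp.approx_up (Amp.approx_up.{u, v, v} amenable_complex.approx : IsApproxAmenable.{u, v} _)
  have := Amp.separable (A := ℂ)
  exact ⟨Amp (Amp ℂ), { (inferInstance : NormedRing (Amp (Amp ℂ))) with
      mul_comm := Amp.comm (Amp.comm mul_comm) }, (inferInstance : NormedAlgebra ℂ (Amp (Amp ℂ))),
    inferInstance, Amp.norm_one_eq, Amp.separable, Amp.semisimple fun a ha => Amp.semisimple
      (fun z hz => hz (.id ℂ ℂ)) a fun χ => ha χ, h1, h1.semi,
    fun h => Amp.not_amenable.{u} (Amp.bdd_down h)⟩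

end Pool.Agent.P.MP_98688b_an
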