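import Mathlib

/-!
The example: `ℓ¹(ℕ × ℕ)` with the biorthogonal system
`s (k, 0) = e (k, 0)`, `s (k, n + 1) = e (k, n + 1) - k • e (k, 0)`.
-/

namespace Pool.Agent.P.MP_98688b_an

open Filter Topology

/-- The underlying Banach space. -/
abbrev E : Type := lp (fun _ : ℕ × ℕ => ℂ) 1

/-- Unit vectors. -/
noncomputable def e (j : ℕ × ℕ) : E := lp.single 1 j (1 : ℂ)

lemma norm_e (j : ℕ × ℕ) : ‖e j‖ = 1 := by
  unfold e
  rw [lp.norm_single (by norm_num)]
  simp

lemma e_apply (i j : ℕ × ℕ) : e i j = if j = i then 1 else 0 := by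
  unfold e
  rw [lp.single_apply, Pi.single_apply]

lemma hasSum_e (x : E) : HasSum (fun j => x j • e j) x := by
  have := lp.hasSum_single (E := fun _ : ℕ × ℕ => ℂ) (p := 1) (by norm_num) x
  convert this using 2 with j
  unfold e
  rw [← lp.single_smul]
  simp

lemma summable_norm (x : E) : Summable fun j => ‖x j‖ := by
  have := (lp.memℓp x).summable (by norm_num)
  simpa using this

lemma tsum_norm (x : E) : ∑' j, ‖x j‖ = ‖x‖ := by
  have := lp.norm_eq_tsum_rpow (p := 1) (by norm_num) x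
  simpa using this.symm

lemma leaf_inj (k : ℕ) : Function.Injective fun n : ℕ => (k, n + 1) := by
  intro a b h
  simpa using h

lemma summable_leaf_norm (x : E) (k : ℕ) : Summable fun n => ‖x (k, n + 1)‖ :=
  (summable_norm x).comp_injective (leaf_inj k)

lemma summable_leaf (x : E) (k : ℕ) : Summable fun n => x (k, n + 1) :=
  (summable_leaf_norm x k).of_norm

/-- The sum of the leaf coordinates of block `k`. -/
noncomputable def leafSum (k : ℕ) : E →L[ℂ] ℂ :=
  LinearMap.mkContinuous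
    { toFun := fun x => ∑' n, x (k, n + 1)
      map_add' := fun x y => by
        simp only [lp.coeFn_add, Pi.add_apply]
        exact (summable_leaf x k).tsum_add (summable_leaf y k)
      map_smul' := fun c x => by
        simp only [lp.coeFn_smul, Pi.smul_apply, smul_eq_mul, RingHom.id_apply]
        exact tsum_mul_left } 1
    (fun x => by
      simp only [LinearMap.coe_mk, AddHom.coe_mk, one_mul]
      calc _ ≤ ∑' n, ‖x (k, n + 1)‖ := norm_tsum_le_tsum_norm (summable_leaf_norm x k)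
        _ ≤ ∑' j, ‖x j‖ := (summable_leaf_norm x k).tsum_le_tsum_of_inj _ (leaf_inj k)
            (fun _ _ => norm_nonneg _) (fun _ => le_rfl) (summable_norm x)
        _ = ‖x‖ := tsum_norm x)

lemma leafSum_apply (k : ℕ) (x : E) : leafSum k x = ∑' n, x (k, n + 1) := rfl

lemma leafSum_e_root (k k' : ℕ) : leafSum k (e (k', 0)) = 0 := by
  simp [leafSum_apply, e_apply]

lemma leafSum_e_leaf (k k' n : ℕ) : leafSum k (e (k', n + 1)) = if k = k' then 1 else 0 := by
  rw [leafSum_apply]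
  split_ifs with h
  · subst h
    simp [e_apply]
  · simp [e_apply, h]

/-- Coordinate functionals. -/
noncomputable def ev (j : ℕ × ℕ) : E →L[ℂ] ℂ := lp.evalCLM ℂ (fun _ : ℕ × ℕ => ℂ) 1 j

lemma ev_apply (j : ℕ × ℕ) (x : E) : ev j x = x j := rfl

/-- The vectors of the biorthogonal system. -/
noncomputable def s : ℕ × ℕ → E
  | (k, 0) => e (k, 0)
  | (k, n + 1) => e (k, n + 1) - (k : ℂ) • e (k, 0)

/-- The functionals of the biorthogonal system. -/
noncomputable def g : ℕ × ℕ → E →L[ℂ] ℂ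
  | (k, 0) => ev (k, 0) + (k : ℂ) • leafSum k
  | (k, n + 1) => ev (k, n + 1)

lemma ev_e (i j : ℕ × ℕ) : ev j (e i) = if j = i then 1 else 0 := e_apply i j

lemma g_s (i j : ℕ × ℕ) : g i (s j) = if i = j then 1 else 0 := by
  obtain ⟨k, _ | n⟩ := i <;> obtain ⟨k', _ | n'⟩ := j
  · simp [g, s, ev_e, leafSum_e_root]
  · by_cases h : k = k'
    · subst h
      simp [g, s, ev_e, leafSum_e_root, leafSum_e_leaf]
    · simp [g, s, ev_e, leafSum_e_root, leafSum_e_leaf, h]
  · simp [g, s, ev_e]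
  · simp [g, s, ev_e]

lemma g_ext {x y : E} (h : ∀ j, g j x = g j y) : x = y := by
  have hleaf : ∀ k n, x (k, n + 1) = y (k, n + 1) := fun k n => h (k, n + 1)
  ext ⟨k, _ | n⟩
  · have := h (k, 0)
    simp only [g, add_apply, smul_apply, ev_apply, leafSum_apply, hleaf] at this
    exact add_right_cancel this
  · exact hleaf k n

lemma block_hasSum (x : E) (k : ℕ) :
    HasSum (fun n => g (k, n) x • s (k, n)) (∑' n, x (k, n) • e (k, n)) := by
  have h0 : Summable fun n => x (k, n) • e (k, n) := (hasSum_e x).summable.prod_factor k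
  have h1 : HasSum (fun n => x (k, n + 1) • e (k, n + 1))
      (∑' n, x (k, n) • e (k, n) - x (k, 0) • e (k, 0)) := by
    have := (hasSum_nat_add_iff' 1).2 h0.hasSum
    simpa using this
  have h2 : HasSum (fun n => x (k, n + 1) • ((k : ℂ) • e (k, 0)))
      (leafSum k x • ((k : ℂ) • e (k, 0))) := (summable_leaf x k).hasSum.smul_const _
  rw [← hasSum_nat_add_iff' 1]
  convert h1.sub h2 using 1
  · ext1 n
    simp only [g, s, ev_apply, smul_sub]
  · simp only [Finset.range_one, Finset.sum_singleton, g, s, add_apply, smul_apply, ev_apply,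
      add_smul, smul_smul, smul_eq_mul]
    rw [mul_comm (k : ℂ), sub_sub]

lemma approx_one (x : E) {ε : ℝ} (hε : 0 < ε) : ∀ᶠ K in atTop, ∀ᶠ N in atTop,
    ‖x - ∑ j ∈ Finset.range K ×ˢ Finset.range N, g j x • s j‖ < ε := by
  have h1 : HasSum (fun k => ∑' n, x (k, n) • e (k, n)) x :=
    (hasSum_e x).prod_fiberwise fun k => ((hasSum_e x).summable.prod_factor k).hasSum
  have h2 := h1.tendsto_sum_nat
  have h3 := (Metric.tendsto_nhds.1 h2) ε hε
  filter_upwards [h3] with K hK
  have h4 : Tendsto (fun N => ∑ j ∈ Finset.range K ×ˢ Finset.range N, g j x • s j) atTop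
      (𝓝 (∑ k ∈ Finset.range K, ∑' n, x (k, n) • e (k, n))) := by
    simp only [Finset.sum_product]
    exact tendsto_finsetSum _ fun k _ => (block_hasSum x k).tendsto_sum_nat
  have h5 := h4.eventually (Metric.isOpen_ball.mem_nhds (Metric.mem_ball.2 hK))
  filter_upwards [h5] with N hN
  rw [← dist_eq_norm, dist_comm]
  exact hN

lemma approx (S : Finset E) {ε : ℝ} (hε : 0 < ε) : ∃ F : Finset (ℕ × ℕ), ∀ x ∈ S,
    ‖x - ∑ j ∈ F, g j x • s j‖ < ε := by
  have h1 : ∀ᶠ K in atTop, ∀ x ∈ S, ∀ᶠ N in atTop,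
      ‖x - ∑ j ∈ Finset.range K ×ˢ Finset.range N, g j x • s j‖ < ε :=
    (eventually_all_finset S).2 fun x _ => approx_one x hε
  obtain ⟨K, hK⟩ := h1.exists
  obtain ⟨N, hN⟩ := ((eventually_all_finset S).2 hK).exists
  exact ⟨_, hN⟩

/-- The product. -/
lemma exists_mul {V : Type} [NormedAddCommGroup V] [NormedSpace ℂ V] [CompleteSpace V]
    {J : Type} [Countable J] [DecidableEq J] (s : J → V) (g : J → V →L[ℂ] ℂ)
    (g_s : ∀ i j, g i (s j) = if i = j then 1 else 0) :
    ∃ (c : J → ℝ) (w : J → ℝ) (B : V → V → V),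
    (∀ j, 0 < c j) ∧ Summable w ∧ (∀ j, c j * ‖g j‖ * ‖s j‖ ≤ w j) ∧
      (∀ x y, ‖B x y‖ ≤ ‖x‖ * ‖y‖) ∧ ∀ j x y, g j (B x y) = c j * g j x * g j y := by
  obtain ⟨w, hw, σ, hσ, hσ1⟩ := NNReal.exists_pos_sum_of_countable one_ne_zero J
  have hw' : ∀ j, (0 : ℝ) < w j := fun j => hw j
  have hσ' : HasSum (fun j => (w j : ℝ)) (σ : ℝ) := NNReal.hasSum_coe.2 hσ
  have hσ1' : (σ : ℝ) ≤ 1 := by exact_mod_cast hσ1.le
  let c : J → ℝ := fun j => w j / ((‖g j‖ + 1) ^ 2 * (‖s j‖ + 1))
  have hc : ∀ j, 0 < c j := fun j => by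
    have := hw' j
    simp only [c]
    positivity
  have hcw : ∀ j, c j * ((‖g j‖ + 1) ^ 2 * (‖s j‖ + 1)) = w j := fun j => by
    simp only [c]
    field_simp
  let T : V → V → J → V := fun x y j => ((c j : ℂ) * g j x * g j y) • s j
  have hT : ∀ x y j, ‖T x y j‖ ≤ w j * (‖x‖ * ‖y‖) := fun x y j => by
    simp only [T]
    rw [norm_smul, norm_mul, norm_mul, Complex.norm_real, Real.norm_of_nonneg (hc j).le, ← hcw j]
    have h1 := norm_nonneg (g j)
    have h2 := norm_nonneg (s j)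
    have h3 := (hc j).le
    calc c j * ‖g j x‖ * ‖g j y‖ * ‖s j‖
        ≤ c j * (‖g j‖ * ‖x‖) * (‖g j‖ * ‖y‖) * ‖s j‖ := by
          gcongr
          · exact (g j).le_opNorm x
          · exact (g j).le_opNorm y
      _ = c j * (‖g j‖ ^ 2 * ‖s j‖) * (‖x‖ * ‖y‖) := by ring
      _ ≤ _ := by
          gcongr
          · linarith
          · linarith
  have hTs : ∀ x y, Summable (T x y) := fun x y =>
    Summable.of_norm_bounded (hσ'.summable.mul_right _) (hT x y)
  refine ⟨c, fun j => w j, fun x y => ∑' j, T x y j, hc, hσ'.summable, fun j => ?_,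
    fun x y => ?_, fun i x y => ?_⟩
  · beta_reduce
    rw [← hcw j, mul_assoc]
    have h1 := norm_nonneg (g j)
    have h2 := norm_nonneg (s j)
    refine mul_le_mul_of_nonneg_left ?_ (hc j).le
    nlinarith [mul_nonneg h1 h2, mul_nonneg h1 h1, mul_nonneg h1 (mul_nonneg h1 h2)]
  · calc _ ≤ (σ : ℝ) * (‖x‖ * ‖y‖) := tsum_of_norm_bounded (hσ'.mul_right _) (hT x y)
      _ ≤ 1 * (‖x‖ * ‖y‖) := by gcongr
      _ = _ := one_mul _
  · beta_reduce
    have h3 := (g i).hasSum (hTs x y).hasSum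
    have h4 : HasSum (fun j => g i (T x y j)) (g i (T x y i)) := by
      refine hasSum_single i fun j hj => ?_
      simp [T, g_s, hj.symm]
    rw [h3.unique h4]
    simp [T, g_s]

end Pool.Agent.P.MP_98688b_an
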