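import Mathlib
import Pool.Agent.P.MP_98688b_an.Abstract
import Pool.Agent.P.MP_98688b_an.Example

/-!
The Banach algebra built from a total biorthogonal system, and the main theorem.
-/

namespace Pool.Agent.P.MP_98688b_an

open Filter Topology

universe u v

/-- The ring structure on `V` given by a product that is diagonal for a total family of
functionals. -/
@[reducible] noncomputable def diagRing {V : Type} [NormedAddCommGroup V] [NormedSpace ℂ V]
    {J : Type} (g : J → V →L[ℂ] ℂ) (hg : ∀ x y, (∀ j, g j x = g j y) → x = y) (c : J → ℝ)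
    (B : V → V → V) (hB : ∀ x y, ‖B x y‖ ≤ ‖x‖ * ‖y‖)
    (hgB : ∀ j x y, g j (B x y) = c j * g j x * g j y) : NonUnitalNormedRing V :=
  { (inferInstance : NormedAddCommGroup V) with
    mul := B
    left_distrib := fun x y z => hg _ _ fun j => by
      show g j (B x (y + z)) = g j (B x y + B x z)
      simp only [hgB, map_add]; ring
    right_distrib := fun x y z => hg _ _ fun j => by
      show g j (B (x + y) z) = g j (B x z + B y z)
      simp only [hgB, map_add]; ring
    zero_mul := fun x => hg _ _ fun j => by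
      show g j (B 0 x) = g j 0
      simp only [hgB, map_zero]; ring
    mul_zero := fun x => hg _ _ fun j => by
      show g j (B x 0) = g j 0
      simp only [hgB, map_zero]; ring
    mul_assoc := fun x y z => hg _ _ fun j => by
      show g j (B (B x y) z) = g j (B x (B y z))
      simp only [hgB]; ring
    norm_mul_le := hB }

theorem main_aux {V : Type} [NormedAddCommGroup V] [inst : NormedSpace ℂ V] [CompleteSpace V]
    (s : ℕ × ℕ → V) (g : ℕ × ℕ → V →L[ℂ] ℂ)
    (g_s : ∀ i j, g i (s j) = if i = j then 1 else 0)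
    (hg : ∀ x y, (∀ j, g j x = g j y) → x = y)
    (happ : ∀ (S : Finset V) (ε : ℝ), 0 < ε → ∃ F : Finset (ℕ × ℕ), ∀ x ∈ S,
      ‖x - ∑ j ∈ F, g j x • s j‖ < ε)
    (htest : ∀ k : ℕ, ∃ f : V →L[ℂ] ℂ, f (s (k, 0)) = 1 ∧ ‖f‖ ≤ 1 ∧
      ∀ n, ‖s (k, n + 1) + (k : ℂ) • s (k, 0)‖ ≤ 1) :
    ∃ (A : Type) (_ : NonUnitalNormedRing A) (_ : NormedSpace ℂ A) (_ : IsScalarTower ℂ A A)
      (_ : SMulCommClass ℂ A A) (_ : CompleteSpace A),
      (∀ a b : A, a * b = b * a) ∧
        IsApproxSemiAmenable.{u, v} A ∧ ¬ IsBddApproxSemiAmenable.{u, v} A := by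
  obtain ⟨c, w, B, hc, hw, hcw, hB, hgB⟩ := exists_mul s g g_s
  have hBs : ∀ j x, B x (s j) = ((c j : ℂ) * g j x) • s j := fun j x => hg _ _ fun i => by
    rw [hgB, map_smul, g_s]
    split_ifs with h
    · subst h; simp
    · simp
  have hsB : ∀ j x, B (s j) x = ((c j : ℂ) * g j x) • s j := fun j x => hg _ _ fun i => by
    rw [hgB, map_smul, g_s]
    split_ifs with h
    · subst h; simp
    · simp
  have hsm1 : ∀ (a : ℂ) x y, B (a • x) y = a • B x y := fun a x y => hg _ _ fun j => by
    simp only [hgB, map_smul, smul_eq_mul]; ring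
  have hsm2 : ∀ (a : ℂ) x y, B x (a • y) = a • B x y := fun a x y => hg _ _ fun j => by
    simp only [hgB, map_smul, smul_eq_mul]; ring
  have hc0 : ∀ j, (c j : ℂ) ≠ 0 := fun j => by exact_mod_cast (hc j).ne'
  have hkey : ∀ j (a : V), ((c j : ℂ) * g j a) • (c j : ℂ)⁻¹ • s j = g j a • s j := by
    intro j a
    rw [smul_smul]
    congr 1
    field_simp [hc0 j]
  let R : NonUnitalNormedRing V := diagRing g hg c B hB hgB
  have T1 : IsScalarTower ℂ V V := ⟨hsm1⟩
  have T2 : SMulCommClass ℂ V V := ⟨fun a x y => (hsm2 a x y).symm⟩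
  refine ⟨V, R, inst, T1, T2, ‹_›, fun a b => hg _ _ fun j => ?_, ?_, ?_⟩
  · show g j (B a b) = g j (B b a)
    simp only [hgB]; ring
  · intro X _ _ _ M D hD
    refine approxSemiInner_of_idempotents (fun j => (c j : ℂ)⁻¹ • s j) (fun j x => c j * g j x)
      ?_ ?_ ?_ ?_ M D hD
    · intro j a
      show B a _ = _
      rw [hsm2, hBs, smul_comm]
    · intro j a
      show B _ a = _
      rw [hsm1, hsB, smul_comm]
    · intro j
      show B _ _ = _
      rw [hsm1, hsm2, hBs, g_s, if_pos rfl, smul_smul, smul_smul]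
      congr 1
      field_simp [hc0 j]
    · intro S ε hε
      obtain ⟨F, hF⟩ := happ S ε hε
      refine ⟨F, fun a ha => ?_⟩
      have h := hF a ha
      rw [← Finset.sum_congr rfl fun j _ => hkey j a] at h
      exact h
  · refine not_bdd_of_test fun k => ?_
    obtain ⟨f, hf1, hf2, hn⟩ := htest k
    refine ⟨f, s (k, 0), hf1, hf2, fun ε hε => ?_⟩
    have h1 : Tendsto (fun n : ℕ => w (k, n + 1)) atTop (𝓝 0) :=
      (hw.comp_injective (leaf_inj k)).tendsto_atTop_zero
    obtain ⟨n, hn'⟩ := (h1.eventually (gt_mem_nhds hε)).exists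
    refine ⟨_, hn n, fun b => ?_⟩
    rw [add_sub_cancel_right]
    show ‖B _ b‖ ≤ _
    rw [hsB, norm_smul, norm_mul, Complex.norm_real, Real.norm_of_nonneg (hc _).le]
    have h3 := (hc (k, n + 1)).le
    calc _ ≤ c (k, n + 1) * (‖g (k, n + 1)‖ * ‖b‖) * ‖s (k, n + 1)‖ := by
          gcongr
          exact (g _).le_opNorm b
      _ = c (k, n + 1) * ‖g (k, n + 1)‖ * ‖s (k, n + 1)‖ * ‖b‖ := by ring
      _ ≤ ε * ‖b‖ := by
          gcongr
          exact (hcw _).trans hn'.le

theorem main :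
    ∃ (A : Type) (_ : NonUnitalNormedRing A) (_ : NormedSpace ℂ A) (_ : IsScalarTower ℂ A A)
      (_ : SMulCommClass ℂ A A) (_ : CompleteSpace A),
      (∀ a b : A, a * b = b * a) ∧
        IsApproxSemiAmenable.{u, v} A ∧ ¬ IsBddApproxSemiAmenable.{u, v} A := by
  refine main_aux s g g_s (fun x y h => g_ext h) (fun S ε hε => approx S hε) fun k => ?_
  refine ⟨ev (k, 0), by simp [s, ev_e], ?_, fun n => ?_⟩
  · refine ContinuousLinearMap.opNorm_le_bound _ zero_le_one fun x => ?_
    rw [one_mul, ev_apply]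
    exact lp.norm_apply_le_norm (by norm_num) x _
  · simp [s, norm_e]

end Pool.Agent.P.MP_98688b_an
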